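import Mathlib

set_option autoImplicit false

/-! Tilings by punctured intervals: one-dimensional tilings and assembly in dimension three. -/

namespace Pool.Agent.H36R3.Punc

/-- the index set of the punctured interval -/
def inT (K L i : ℤ) : Prop := (0 ≤ i ∧ i < K) ∨ (K < i ∧ i ≤ K + L)

/-- `S` is a disjoint union of copies of the punctured interval -/
def Til (K L : ℤ) (S : Set ℤ) : Prop :=
  ∃ C : Set (ℤ × ℤ), (∀ c ∈ C, c.2 = 1 ∨ c.2 = -1) ∧
    (∀ x ∈ S, ∃! c : ℤ × ℤ, c ∈ C ∧ ∃ i, inT K L i ∧ x = c.1 + c.2 * i) ∧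
    (∀ c ∈ C, ∀ i, inT K L i → c.1 + c.2 * i ∈ S)

theorem assemble (K L : ℤ) (A : Fin 3 → Set (Fin 3 → ℤ)) (hp : ∀ x, ∃! d, x ∈ A d)
    (ht : ∀ d x, Til K L {s | Function.update x d s ∈ A d}) :
    ∃ C : Set ((Fin 3 → ℤ) × ℤ × Fin 3),
      (∀ c ∈ C, c.2.1 = 1 ∨ c.2.1 = -1) ∧
      ∀ x : Fin 3 → ℤ, ∃! c : (Fin 3 → ℤ) × ℤ × Fin 3,
        c ∈ C ∧
        ∃ i : ℤ, ((0 ≤ i ∧ i < K) ∨ (K < i ∧ i ≤ K + L)) ∧
          x = c.1 + (c.2.1 * i) • (Pi.single c.2.2 (1 : ℤ) : Fin 3 → ℤ) := by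
  classical
  choose Cl h1 h2 h3 using ht
  refine ⟨{c | (c.1 c.2.2, c.2.1) ∈ Cl c.2.2 (Function.update c.1 c.2.2 0)}, ?_, ?_⟩
  · intro c hc
    exact h1 _ _ _ hc
  · intro x
    obtain ⟨d, hd, hdu⟩ := hp x
    have hx : x d ∈ {s | Function.update (Function.update x d 0) d s ∈ A d} := by
      simp only [Set.mem_ofPred_eq, Function.update_idem, Function.update_eq_self]
      exact hd
    obtain ⟨⟨s, τ⟩, ⟨hC, i, hi, hxi⟩, hu⟩ := h2 d (Function.update x d 0) (x d) hx
    refine ⟨(Function.update x d s, τ, d), ⟨?_, i, hi, ?_⟩, ?_⟩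
    · simp only [Set.mem_ofPred_eq, Function.update_self, Function.update_idem]
      exact hC
    · funext j
      by_cases hj : j = d
      · subst hj
        simpa using hxi
      · simp [Function.update_of_ne hj, Pi.single_eq_of_ne hj]
    · rintro ⟨p, τ', d'⟩ ⟨hpC, i', hi', hx'⟩
      simp only [Set.mem_ofPred_eq] at hpC hx'
      have hoff : ∀ j, j ≠ d' → x j = p j := by
        intro j hj
        have := congrFun hx' j
        simpa [Pi.single_eq_of_ne hj] using this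
      have hon : x d' = p d' + τ' * i' := by
        have := congrFun hx' d'
        simpa using this
      have key : Function.update x d' 0 = Function.update p d' 0 := by
        funext j
        by_cases hj : j = d'
        · subst hj; simp
        · simp [Function.update_of_ne hj, hoff j hj]
      have hdd : d' = d := by
        apply hdu
        have h := h3 d' (Function.update p d' 0) (p d', τ') hpC i' hi'
        simp only [Set.mem_ofPred_eq, ← key, ← hon] at h
        simpa using h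
      subst hdd
      have h := hu (p d', τ') ⟨by rw [key]; exact hpC, i', hi', hon⟩
      have e1 : p d' = s := congrArg Prod.fst h
      have e2 : τ' = τ := congrArg Prod.snd h
      subst e2
      have e3 : p = Function.update x d' s := by
        funext j
        by_cases hj : j = d'
        · subst hj; simp [e1]
        · simp [Function.update_of_ne hj, hoff j hj]
      rw [e3]

theorem til_congr {K L : ℤ} {S S' : Set ℤ} (h : S = S') (hS : Til K L S) : Til K L S' := h ▸ hS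

theorem til_mix (K L : ℤ) (PF PB : Set ℤ) (hK : 1 ≤ K) (hL : 1 ≤ L) (hd : ∀ s, s ∈ PF → s ∈ PB → False)
    (hs : ∀ s s', (s ∈ PF ∨ s ∈ PB) → (s' ∈ PF ∨ s' ∈ PB) → s < s' → K + L < s' - s) :
    Til K L {x | (∃ s, s ∈ PF ∧ inT K L (x - s)) ∨ (∃ s, s ∈ PB ∧ inT K L (s + (K + L) - x))} := by
  refine ⟨{c | (c.2 = 1 ∧ c.1 ∈ PF) ∨ (c.2 = -1 ∧ c.1 - (K + L) ∈ PB)}, ?_, ?_, ?_⟩
  · rintro ⟨a, b⟩ (h | h)
    · exact Or.inl h.1
    · exact Or.inr h.1
  · intro x hx
    have main : ∀ c : ℤ × ℤ, (c ∈ {c : ℤ × ℤ | (c.2 = 1 ∧ c.1 ∈ PF) ∨ (c.2 = -1 ∧ c.1 - (K + L) ∈ PB)} ∧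
        ∃ i, inT K L i ∧ x = c.1 + c.2 * i) → 
        ∃ s, 0 ≤ x - s ∧ x - s ≤ K + L ∧ ((s ∈ PF ∧ c = (s, 1)) ∨ (s ∈ PB ∧ c = (s + (K + L), -1))) := by
      rintro ⟨a, b⟩ ⟨h | h, i, hi, hxi⟩
      · obtain ⟨hb, ha⟩ := h
        simp only at hb ha hxi
        subst hb
        refine ⟨a, ?_, ?_, Or.inl ⟨ha, rfl⟩⟩ <;> unfold inT at hi <;> omega
      · obtain ⟨hb, ha⟩ := h
        simp only at hb ha hxi
        subst hb
        refine ⟨a - (K + L), ?_, ?_, Or.inr ⟨ha, by simp⟩⟩ <;> unfold inT at hi <;> omega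
    have uniq : ∀ c c' : ℤ × ℤ, (c ∈ {c : ℤ × ℤ | (c.2 = 1 ∧ c.1 ∈ PF) ∨ (c.2 = -1 ∧ c.1 - (K + L) ∈ PB)} ∧
        ∃ i, inT K L i ∧ x = c.1 + c.2 * i) →
        (c' ∈ {c : ℤ × ℤ | (c.2 = 1 ∧ c.1 ∈ PF) ∨ (c.2 = -1 ∧ c.1 - (K + L) ∈ PB)} ∧
        ∃ i, inT K L i ∧ x = c'.1 + c'.2 * i) → c = c' := by
      intro c c' hc hc'
      obtain ⟨s, h1, h2, h3⟩ := main c hc
      obtain ⟨s', h1', h2', h3'⟩ := main c' hc'
      have hss : s = s' := by
        rcases lt_trichotomy s s' with h | h | h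
        · have := hs s s' (h3.imp And.left And.left) (h3'.imp And.left And.left) h
          omega
        · exact h
        · have := hs s' s (h3'.imp And.left And.left) (h3.imp And.left And.left) h
          omega
      subst hss
      rcases h3 with h | h <;> rcases h3' with h' | h'
      · rw [h.2, h'.2]
      · exact (hd s h.1 h'.1).elim
      · exact (hd s h'.1 h.1).elim
      · rw [h.2, h'.2]
    rcases hx with ⟨s, hsP, hsx⟩ | ⟨s, hsP, hsx⟩
    · have hc : (((s, 1) : ℤ × ℤ) ∈ {c : ℤ × ℤ | (c.2 = 1 ∧ c.1 ∈ PF) ∨ (c.2 = -1 ∧ c.1 - (K + L) ∈ PB)} ∧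
        ∃ i, inT K L i ∧ x = ((s, 1) : ℤ × ℤ).1 + ((s, 1) : ℤ × ℤ).2 * i) :=
        ⟨Or.inl ⟨rfl, hsP⟩, x - s, hsx, by simp⟩
      exact ⟨_, hc, fun c' hc' => uniq _ _ hc' hc⟩
    · have hc : (((s + (K + L), -1) : ℤ × ℤ) ∈ {c : ℤ × ℤ | (c.2 = 1 ∧ c.1 ∈ PF) ∨ (c.2 = -1 ∧ c.1 - (K + L) ∈ PB)} ∧
        ∃ i, inT K L i ∧ x = ((s + (K + L), -1) : ℤ × ℤ).1 + ((s + (K + L), -1) : ℤ × ℤ).2 * i) :=
        ⟨Or.inr ⟨rfl, by simpa using hsP⟩, s + (K + L) - x, hsx, by simp⟩
      exact ⟨_, hc, fun c' hc' => uniq _ _ hc' hc⟩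
  · rintro ⟨a, b⟩ (h | h) i hi
    · obtain ⟨hb, ha⟩ := h
      simp only at hb ha
      subst hb
      refine Or.inl ⟨a, ha, ?_⟩
      have : a + 1 * i - a = i := by ring
      simpa [this] using hi
    · obtain ⟨hb, ha⟩ := h
      simp only at hb ha
      subst hb
      refine Or.inr ⟨a - (K + L), ha, ?_⟩
      have : a - (K + L) + (K + L) - (a + -1 * i) = i := by ring
      simpa [this] using hi

theorem til_empty (K L : ℤ) : Til K L ∅ :=
  ⟨∅, by simp, by simp, by simp⟩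

/-- uniqueness of quotient and remainder -/
theorem divmod {N t q r : ℤ} (h : t = N * q + r) (h0 : 0 ≤ r) (h1 : r < N) :
    t / N = q ∧ t % N = r := by
  have hN : 0 < N := lt_of_le_of_lt h0 h1
  constructor
  · rw [h, Int.add_comm, Int.add_mul_ediv_left _ _ hN.ne', Int.ediv_eq_zero_of_lt h0 h1, zero_add]
  · rw [h, Int.add_comm, Int.add_mul_emod_self_left, Int.emod_eq_of_lt h0 h1]

/-- all residue classes but one -/
theorem til_mod (K L R : ℤ) (hK : 1 ≤ K) (hL : 1 ≤ L) :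
    Til K L {y | y % (K + L + 1) ≠ R % (K + L + 1)} := by
  have hmix := til_mix K L {s | (K + L + 1) ∣ (s + K - R)} ∅ hK hL (by intro s _ h; exact h) (by
    rintro s s' (h | h) (h' | h') hlt
    · simp only [Set.mem_ofPred_eq] at h h'
      have hd : (K + L + 1) ∣ (s' - s) := by
        have := dvd_sub h' h
        have e : s' + K - R - (s + K - R) = s' - s := by ring
        rwa [e] at this
      have := Int.le_of_dvd (by omega) hd
      omega
    · exact h'.elim
    · exact h.elim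
    · exact h.elim)
  refine til_congr ?_ hmix
  ext y
  simp only [Set.mem_ofPred_eq, Set.mem_empty_iff_false, false_and, exists_false, or_false]
  have hN : 0 < K + L + 1 := by omega
  constructor
  · rintro ⟨s, hs, hy⟩ heq
    have hd : (K + L + 1) ∣ (y - R) := Int.dvd_of_emod_eq_zero (by
      rw [Int.emod_eq_emod_iff_emod_sub_eq_zero] at heq; exact heq)
    have hd2 : (K + L + 1) ∣ (y - s - K) := by
      have := dvd_sub hd hs
      have e : y - R - (s + K - R) = y - s - K := by ring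
      rwa [e] at this
    obtain ⟨q, hq⟩ := hd2
    unfold inT at hy
    rcases lt_trichotomy q 0 with h | h | h
    · have : (K + L + 1) * q ≤ (K + L + 1) * (-1) := by
        apply mul_le_mul_of_nonneg_left _ hN.le; omega
      omega
    · subst h
      simp at hq
      omega
    · have : (K + L + 1) * 1 ≤ (K + L + 1) * q := by
        apply mul_le_mul_of_nonneg_left _ hN.le; omega
      omega
  · intro hne
    have hne' : (y - R) % (K + L + 1) ≠ 0 := by
      intro h
      exact hne ((Int.emod_eq_emod_iff_emod_sub_eq_zero).2 h)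
    have h0 := Int.emod_nonneg (y - R) hN.ne'
    have h1 := Int.emod_lt_of_pos (y - R) hN
    have h2 := Int.mul_ediv_add_emod (y - R) (K + L + 1)
    set ρ := (y - R) % (K + L + 1) with hρ
    set q := (y - R) / (K + L + 1) with hq
    by_cases hc : ρ ≤ L
    · refine ⟨y - ρ - K, ⟨q, by linarith⟩, ?_⟩
      unfold inT; right; omega
    · refine ⟨y - ρ + (K + L + 1) - K, ⟨q + 1, by linarith⟩, ?_⟩
      unfold inT; left; omega

end Pool.Agent.H36R3.Punc
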