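import Pool.Agent.H36R3.PuncA

set_option autoImplicit false

/-! The three classes on the first axis. -/

namespace Pool.Agent.H36R3.Punc

/-- the base set: a tile at `0` and a reversed tile at `2K+L`, repeated with period `3(K+L)` -/
def S0 (K L : ℤ) : Set ℤ :=
  {t | (0 ≤ t % (3 * (K + L)) ∧ t % (3 * (K + L)) < K) ∨
    (K < t % (3 * (K + L)) ∧ t % (3 * (K + L)) ≤ K + L) ∨
    (K + L + K ≤ t % (3 * (K + L)) ∧ t % (3 * (K + L)) < 2 * (K + L)) ∨
    (2 * (K + L) < t % (3 * (K + L)) ∧ t % (3 * (K + L)) ≤ 2 * (K + L) + K)}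

theorem le_of_dvd_sub {N a x : ℤ} (_ha : 0 < a) (haN : a ≤ N) (hx : 0 < x) (h : N ∣ x - a) : a ≤ x := by
  by_contra hlt
  push Not at hlt
  have h2 : N ∣ a - x := by
    have := (dvd_neg).2 h
    have e : -(x - a) = a - x := by ring
    rwa [e] at this
  have := Int.le_of_dvd (by omega) h2
  omega

theorem til_S0 (K L : ℤ) (hK : 1 ≤ K) (hL : 1 ≤ L) : Til K L (S0 K L) := by
  have hN : 0 < 3 * (K + L) := by omega
  have hmix := til_mix K L {s | (3 * (K + L)) ∣ s} {s | (3 * (K + L)) ∣ s - (K + L + K)} hK hL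
    (by
      intro s h1 h2
      simp only [Set.mem_ofPred_eq] at h1 h2
      have h3 := dvd_sub h1 h2
      have e : s - (s - (K + L + K)) = K + L + K := by ring
      rw [e] at h3
      have := Int.le_of_dvd (by omega) h3
      omega)
    (by
      rintro s s' (h | h) (h' | h') hlt
      · simp only [Set.mem_ofPred_eq] at h h'
        have h3 := Int.le_of_dvd (by omega) (dvd_sub h' h)
        omega
      · simp only [Set.mem_ofPred_eq] at h h'
        have h3 := dvd_sub h' h
        have e : s' - (K + L + K) - s = (s' - s) - (K + L + K) := by ring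
        rw [e] at h3
        have := le_of_dvd_sub (by omega) (by omega) (by omega) h3
        omega
      · simp only [Set.mem_ofPred_eq] at h h'
        have h3 : 3 * (K + L) ∣ (s' - s) - (2 * (K + L) - K) := by
          have h4 := dvd_sub (dvd_sub h' h) (dvd_refl (3 * (K + L)))
          have e : s' - (s - (K + L + K)) - 3 * (K + L) = (s' - s) - (2 * (K + L) - K) := by ring
          rwa [e] at h4
        have := le_of_dvd_sub (by omega) (by omega) (by omega) h3
        omega
      · simp only [Set.mem_ofPred_eq] at h h'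
        have h3 := dvd_sub h' h
        have e : s' - (K + L + K) - (s - (K + L + K)) = s' - s := by ring
        rw [e] at h3
        have := Int.le_of_dvd (by omega) h3
        omega)
  refine til_congr ?_ hmix
  ext t
  simp only [Set.mem_ofPred_eq, S0]
  constructor
  · rintro (⟨s, ⟨q, hq⟩, hy⟩ | ⟨s, ⟨q, hq⟩, hy⟩)
    · unfold inT at hy
      obtain ⟨-, h2⟩ := divmod (N := 3 * (K + L)) (t := t) (q := q) (r := t - s) (by omega)
        (by omega) (by omega)
      rw [h2]
      omega
    · unfold inT at hy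
      obtain ⟨-, h2⟩ := divmod (N := 3 * (K + L)) (t := t) (q := q) (r := t - (s - (K + L + K)))
        (by omega) (by omega) (by omega)
      rw [h2]
      omega
  · intro h
    have h2 := Int.mul_ediv_add_emod t (3 * (K + L))
    set ρ := t % (3 * (K + L)) with hρ
    set q := t / (3 * (K + L)) with hq
    by_cases hc : ρ ≤ K + L
    · left
      refine ⟨t - ρ, ⟨q, by omega⟩, ?_⟩
      unfold inT
      omega
    · right
      refine ⟨t - ρ + (K + L + K), ⟨q, by omega⟩, ?_⟩
      unfold inT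
      omega

theorem til_shift (K L a : ℤ) (S : Set ℤ) (h : Til K L S) : Til K L {x | x - a ∈ S} := by
  obtain ⟨C, h1, h2, h3⟩ := h
  refine ⟨{c | (c.1 - a, c.2) ∈ C}, fun c hc => h1 (c.1 - a, c.2) hc, ?_, ?_⟩
  · intro x hx
    obtain ⟨⟨s, τ⟩, ⟨hC, i, hi, hxi⟩, hu⟩ := h2 (x - a) hx
    refine ⟨(s + a, τ), ⟨by simpa using hC, i, hi, by simp only at hxi ⊢; omega⟩, ?_⟩
    rintro ⟨p, τ'⟩ ⟨hC', i', hi', hxi'⟩
    have := hu (p - a, τ') ⟨hC', i', hi', by simp only at hxi' ⊢; omega⟩
    have e1 : p - a = s := congrArg Prod.fst this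
    have e2 : τ' = τ := congrArg Prod.snd this
    rw [← e1, ← e2]; simp
  · intro c hc i hi
    have := h3 _ hc i hi
    simp only [Set.mem_ofPred_eq] at this ⊢
    have e : c.1 + c.2 * i - a = c.1 - a + c.2 * i := by ring
    rwa [e]

/-- exactly two of the three shifts of `S0` contain a given point -/
theorem S0_cover (K L : ℤ) (hK : 1 ≤ K) (hL : 1 ≤ L) (x : ℤ) :
    (x ∉ S0 K L ∧ x - 2 * (K + L) ∈ S0 K L ∧ x - (K + L) ∈ S0 K L) ∨
    (x ∈ S0 K L ∧ x - 2 * (K + L) ∉ S0 K L ∧ x - (K + L) ∈ S0 K L) ∨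
    (x ∈ S0 K L ∧ x - 2 * (K + L) ∈ S0 K L ∧ x - (K + L) ∉ S0 K L) := by
  have hN : 0 < 3 * (K + L) := by omega
  have h0 := Int.emod_nonneg x hN.ne'
  have h1 := Int.emod_lt_of_pos x hN
  have h2 := Int.mul_ediv_add_emod x (3 * (K + L))
  simp only [S0, Set.mem_ofPred_eq]
  set ρ := x % (3 * (K + L)) with hρ
  set q := x / (3 * (K + L)) with hq
  have hq1 : 3 * (K + L) * (q - 1) = 3 * (K + L) * q - 3 * (K + L) := by ring
  have a1 : (ρ < K + L → (x - (K + L)) % (3 * (K + L)) = ρ + 2 * (K + L)) := by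
    intro h
    exact (divmod (N := 3 * (K + L)) (t := x - (K + L)) (q := q - 1) (r := ρ + 2 * (K + L))
      (by omega) (by omega) (by omega)).2
  have a2 : (K + L ≤ ρ → (x - (K + L)) % (3 * (K + L)) = ρ - (K + L)) := by
    intro h
    exact (divmod (N := 3 * (K + L)) (t := x - (K + L)) (q := q) (r := ρ - (K + L))
      (by omega) (by omega) (by omega)).2
  have b1 : (ρ < 2 * (K + L) → (x - 2 * (K + L)) % (3 * (K + L)) = ρ + (K + L)) := by
    intro h
    exact (divmod (N := 3 * (K + L)) (t := x - 2 * (K + L)) (q := q - 1) (r := ρ + (K + L))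
      (by omega) (by omega) (by omega)).2
  have b2 : (2 * (K + L) ≤ ρ → (x - 2 * (K + L)) % (3 * (K + L)) = ρ - 2 * (K + L)) := by
    intro h
    exact (divmod (N := 3 * (K + L)) (t := x - 2 * (K + L)) (q := q) (r := ρ - 2 * (K + L))
      (by omega) (by omega) (by omega)).2
  set A := (x - (K + L)) % (3 * (K + L)) with hA
  set B := (x - 2 * (K + L)) % (3 * (K + L)) with hB
  clear_value A B ρ q
  rcases lt_or_ge ρ (K + L) with h | h
  · have e1 := a1 h
    have e2 := b1 (by omega)
    omega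
  · have e1 := a2 h
    rcases lt_or_ge ρ (2 * (K + L)) with h' | h'
    · have e2 := b1 h'
      omega
    · have e2 := b2 h'
      omega

end Pool.Agent.H36R3.Punc
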