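import Pool.Agent.H36R3.PuncA

set_option autoImplicit false

/-! The chains of tiles in the third direction. -/

namespace Pool.Agent.H36R3.Punc

/-- forward tiles with period `K+L+2` -/
def Fon (K L t : ℤ) : Prop := ∃ i, 0 ≤ i ∧ i < K ∧ inT K L (t - i * (K + L + 2))

/-- reversed tiles with period `K+L+2`, the first one at `K+1` -/
def Bon (K L t : ℤ) : Prop :=
  ∃ i, 0 ≤ i ∧ i < K ∧ inT K L (K + 1 + i * (K + L + 2) + (K + L) - t)

theorem Fon_iff (K L : ℤ) (hK : 1 ≤ K) (hL : 1 ≤ L) (q r : ℤ) (h0 : 0 ≤ r) (h1 : r < K + L + 2) :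
    Fon K L ((K + L + 2) * q + r) ↔ (0 ≤ q ∧ q < K ∧ inT K L r) := by
  constructor
  · rintro ⟨i, hi0, hi1, hi⟩
    have hq : q = i := by
      unfold inT at hi
      have e1 := (divmod (N := K + L + 2) (t := (K + L + 2) * q + r) (q := q) (r := r) rfl h0 h1).1
      have e2 := (divmod (N := K + L + 2) (t := (K + L + 2) * q + r) (q := i)
        (r := (K + L + 2) * q + r - i * (K + L + 2)) (by ring) (by omega) (by omega)).1
      rw [← e1, e2]
    subst hq
    refine ⟨hi0, hi1, ?_⟩
    have e : (K + L + 2) * q + r - q * (K + L + 2) = r := by ring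
    rwa [e] at hi
  · rintro ⟨h2, h3, h4⟩
    refine ⟨q, h2, h3, ?_⟩
    have e : (K + L + 2) * q + r - q * (K + L + 2) = r := by ring
    rwa [e]

theorem Bon_iff (K L : ℤ) (hK : 1 ≤ K) (hL : 1 ≤ L) (q r : ℤ) (h0 : 0 ≤ r) (h1 : r < K + L + 2) :
    Bon K L ((K + L + 2) * q + r) ↔
      ((1 ≤ q ∧ q ≤ K ∧ r < K) ∨ (0 ≤ q ∧ q < K ∧ K < r ∧ r ≤ K + L)) := by
  constructor
  · rintro ⟨i, hi0, hi1, hi⟩
    unfold inT at hi
    have e1 := (divmod (N := K + L + 2) (t := (K + L + 2) * q + r) (q := q) (r := r) rfl h0 h1)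
    rcases hi with hi | hi
    · -- last run
      have e2 := (divmod (N := K + L + 2) (t := (K + L + 2) * q + r) (q := i + 1)
        (r := (K + L + 2) * q + r - (i + 1) * (K + L + 2)) (by ring)
        (by have : (i + 1) * (K + L + 2) = i * (K + L + 2) + (K + L + 2) := by ring
            omega)
        (by have : (i + 1) * (K + L + 2) = i * (K + L + 2) + (K + L + 2) := by ring
            omega))
      have hq : q = i + 1 := by rw [← e1.1, e2.1]
      have hr : r = (K + L + 2) * q + r - (i + 1) * (K + L + 2) := e1.2.symm.trans e2.2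
      left
      refine ⟨by omega, by omega, ?_⟩
      have : (i + 1) * (K + L + 2) = i * (K + L + 2) + (K + L + 2) := by ring
      omega
    · have e2 := (divmod (N := K + L + 2) (t := (K + L + 2) * q + r) (q := i)
        (r := (K + L + 2) * q + r - i * (K + L + 2)) (by ring)
        (by omega) (by omega))
      have hq : q = i := by rw [← e1.1, e2.1]
      have hr : r = (K + L + 2) * q + r - i * (K + L + 2) := e1.2.symm.trans e2.2
      right
      refine ⟨by omega, by omega, ?_, ?_⟩ <;> omega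
  · rintro (⟨h2, h3, h4⟩ | ⟨h2, h3, h4, h5⟩)
    · refine ⟨q - 1, by omega, by omega, ?_⟩
      unfold inT
      have : (q - 1) * (K + L + 2) = (K + L + 2) * q - (K + L + 2) := by ring
      left; omega
    · refine ⟨q, by omega, by omega, ?_⟩
      unfold inT
      have : q * (K + L + 2) = (K + L + 2) * q := by ring
      right; omega

/-- the two families differ exactly on the first and the last run -/
theorem FB_xor (K L : ℤ) (hK : 1 ≤ K) (hL : 1 ≤ L) (b v : ℤ) (hv0 : 0 ≤ v) (hv1 : v < K) :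
    (Fon K L (K * b + v) ↔ Bon K L (K * b + v)) ↔ ¬ (b = 0 ∨ b = K + L + 2) := by
  have hD : 0 < K + L + 2 := by omega
  have h0 := Int.emod_nonneg (K * b + v) hD.ne'
  have h1 := Int.emod_lt_of_pos (K * b + v) hD
  have h2 := Int.mul_ediv_add_emod (K * b + v) (K + L + 2)
  set r := (K * b + v) % (K + L + 2) with hr
  set q := (K * b + v) / (K + L + 2) with hq
  have hb0 : b = 0 ↔ (q = 0 ∧ r < K) := by
    constructor
    · intro hb
      have e := divmod (N := K + L + 2) (t := K * b + v) (q := 0) (r := v) (by rw [hb]; ring)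
        hv0 (by omega)
      exact ⟨by rw [hq, e.1], by rw [hr, e.2]; exact hv1⟩
    · rintro ⟨hq0, hrK⟩
      rw [hq0] at h2
      have e1 := divmod (N := K) (t := K * b + v) (q := b) (r := v) rfl hv0 hv1
      have e2 := divmod (N := K) (t := K * b + v) (q := 0) (r := r) (by rw [← h2]; ring) h0 hrK
      rw [← e1.1, e2.1]
  have hbD : b = K + L + 2 ↔ (q = K ∧ r < K) := by
    constructor
    · intro hb
      have e := divmod (N := K + L + 2) (t := K * b + v) (q := K) (r := v) (by rw [hb]; ring)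
        hv0 (by omega)
      exact ⟨by rw [hq, e.1], by rw [hr, e.2]; exact hv1⟩
    · rintro ⟨hq0, hrK⟩
      rw [hq0] at h2
      have e1 := divmod (N := K) (t := K * b + v) (q := b) (r := v) rfl hv0 hv1
      have e2 := divmod (N := K) (t := K * b + v) (q := K + L + 2) (r := r) (by rw [← h2]; ring)
        h0 hrK
      rw [← e1.1, e2.1]
  rw [hb0, hbD, ← h2, Fon_iff K L hK hL q r h0 h1, Bon_iff K L hK hL q r h0 h1]
  unfold inT
  clear_value q r
  omega

theorem Fon_range (K L : ℤ) (hK : 1 ≤ K) (hL : 1 ≤ L) (b v : ℤ) (hv0 : 0 ≤ v) (hv1 : v < K)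
    (h : Fon K L (K * b + v)) : 0 ≤ b ∧ b ≤ K + L + 2 := by
  obtain ⟨i, hi0, hi1, hi⟩ := h
  unfold inT at hi
  have h1 : 0 ≤ i * (K + L + 2) := mul_nonneg hi0 (by omega)
  have h2 : i * (K + L + 2) ≤ (K - 1) * (K + L + 2) :=
    mul_le_mul_of_nonneg_right (by omega) (by omega)
  constructor
  · by_contra hb
    push Not at hb
    have : K * b ≤ K * (-1) := mul_le_mul_of_nonneg_left (by omega) (by omega)
    omega
  · by_contra hb
    push Not at hb
    have : K * (K + L + 2 + 1) ≤ K * b := mul_le_mul_of_nonneg_left (by omega) (by omega)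
    have e : (K - 1) * (K + L + 2) = K * (K + L + 2 + 1) - K - (K + L + 2) := by ring
    omega

theorem Bon_range (K L : ℤ) (hK : 1 ≤ K) (hL : 1 ≤ L) (b v : ℤ) (hv0 : 0 ≤ v) (hv1 : v < K)
    (h : Bon K L (K * b + v)) : 0 ≤ b ∧ b ≤ K + L + 2 := by
  obtain ⟨i, hi0, hi1, hi⟩ := h
  unfold inT at hi
  have h1 : 0 ≤ i * (K + L + 2) := mul_nonneg hi0 (by omega)
  have h2 : i * (K + L + 2) ≤ (K - 1) * (K + L + 2) :=
    mul_le_mul_of_nonneg_right (by omega) (by omega)
  constructor
  · by_contra hb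
    push Not at hb
    have : K * b ≤ K * (-1) := mul_le_mul_of_nonneg_left (by omega) (by omega)
    omega
  · by_contra hb
    push Not at hb
    have : K * (K + L + 2 + 1) ≤ K * b := mul_le_mul_of_nonneg_left (by omega) (by omega)
    have e : (K - 1) * (K + L + 2) = K * (K + L + 2 + 1) - K - (K + L + 2) := by ring
    omega

/-- labels -/
theorem exists_sigma (D : ℤ) (hD : 2 ≤ D) : ∃ (σ : ℤ → ℤ) (D' : ℤ),
    (∀ c, σ c = 0 ∨ σ c = 1) ∧ ∀ c, 2 * c + σ c + D = 2 * (c + D') + 1 - σ (c + D') := by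
  rcases Int.even_or_odd' D with ⟨E, hE | hE⟩
  · refine ⟨fun c => (c / E) % 2, E, fun c => Int.emod_two_eq_zero_or_one _, ?_⟩
    intro c
    have hE0 : 0 < E := by omega
    have : (c + E) / E = c / E + 1 := by
      have := Int.add_mul_ediv_left c 1 hE0.ne'
      rwa [mul_one] at this
    simp only [this]
    omega
  · refine ⟨fun _ => 0, E, fun c => Or.inl rfl, ?_⟩
    intro c
    show 2 * c + 0 + D = 2 * (c + E) + 1 - 0
    omega

/-- the first family on the rows congruent to `y` -/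
def PF (K L : ℤ) (σ : ℤ → ℤ) (y t : ℤ) : Prop :=
  ∃ c, c % (K + L + 1) = y % (K + L + 1) ∧ Fon K L (t - K * (2 * c + σ c))

def PB (K L : ℤ) (σ : ℤ → ℤ) (y t : ℤ) : Prop :=
  ∃ c, c % (K + L + 1) = y % (K + L + 1) ∧ Bon K L (t - K * (2 * c + σ c))

theorem sep (K L : ℤ) (_hK : 1 ≤ K) (_hL : 1 ≤ L) (σ : ℤ → ℤ) (hσ : ∀ c, σ c = 0 ∨ σ c = 1)
    (y c c' : ℤ) (hc : c % (K + L + 1) = y % (K + L + 1)) (hc' : c' % (K + L + 1) = y % (K + L + 1))
    (hlt : c < c') : 2 * (K + L) + 1 ≤ (2 * c' + σ c') - (2 * c + σ c) := by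
  have hd : (K + L + 1) ∣ (c' - c) := Int.dvd_of_emod_eq_zero (by
    have h : c' % (K + L + 1) = c % (K + L + 1) := by rw [hc, hc']
    rw [Int.emod_eq_emod_iff_emod_sub_eq_zero] at h; exact h)
  have := Int.le_of_dvd (by omega) hd
  rcases hσ c with h | h <;> rcases hσ c' with h' | h' <;> omega

theorem spacing (K L : ℤ) (hK : 1 ≤ K) (hL : 1 ≤ L) (u u' i i' : ℤ)
    (hi0 : 0 ≤ i) (hi1 : i < K) (hi0' : 0 ≤ i') (_hi1' : i' < K)
    (hu : 2 * (K + L) + 1 ≤ u' - u) :
    K + L < (K * u' + i' * (K + L + 2)) - (K * u + i * (K + L + 2)) := by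
  have h1 : 0 ≤ i' * (K + L + 2) := mul_nonneg hi0' (by omega)
  have h2 : i * (K + L + 2) ≤ (K - 1) * (K + L + 2) :=
    mul_le_mul_of_nonneg_right (by omega) (by omega)
  have h3 : K * (2 * (K + L) + 1) ≤ K * (u' - u) := mul_le_mul_of_nonneg_left hu (by omega)
  have h4 : 0 ≤ K * (K + L - 1) := mul_nonneg (by omega) (by omega)
  have e1 : K * (u' - u) = K * u' - K * u := by ring
  have e2 : (K - 1) * (K + L + 2) = K * (2 * (K + L) + 1) - K * (K + L - 1) - (K + L + 2) := by ring
  omega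

theorem til_PF (K L : ℤ) (hK : 1 ≤ K) (hL : 1 ≤ L) (σ : ℤ → ℤ) (hσ : ∀ c, σ c = 0 ∨ σ c = 1)
    (y : ℤ) : Til K L {t | PF K L σ y t} := by
  have hmix := til_mix K L {s | ∃ c i, c % (K + L + 1) = y % (K + L + 1) ∧ 0 ≤ i ∧ i < K ∧
      s = K * (2 * c + σ c) + i * (K + L + 2)} ∅ hK hL (by intro s _ h; exact h) (by
    rintro s s' (h | h) (h' | h') hlt
    · obtain ⟨c, i, hc, hi0, hi1, rfl⟩ := h
      obtain ⟨c', i', hc', hi0', hi1', rfl⟩ := h'
      rcases lt_trichotomy c c' with hcc | hcc | hcc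
      · exact spacing K L hK hL _ _ i i' hi0 hi1 hi0' hi1' (sep K L hK hL σ hσ y c c' hc hc' hcc)
      · subst hcc
        have hii : i < i' := by
          by_contra hle
          push Not at hle
          have : i' * (K + L + 2) ≤ i * (K + L + 2) := mul_le_mul_of_nonneg_right hle (by omega)
          omega
        have : (i + 1) * (K + L + 2) ≤ i' * (K + L + 2) :=
          mul_le_mul_of_nonneg_right (by omega) (by omega)
        have e : (i + 1) * (K + L + 2) = i * (K + L + 2) + (K + L + 2) := by ring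
        omega
      · have := spacing K L hK hL _ _ i' i hi0' hi1' hi0 hi1 (sep K L hK hL σ hσ y c' c hc' hc hcc)
        omega
    · exact h'.elim
    · exact h.elim
    · exact h.elim)
  refine til_congr ?_ hmix
  ext t
  simp only [Set.mem_ofPred_eq, Set.mem_empty_iff_false, false_and, exists_false, or_false]
  constructor
  · rintro ⟨s, ⟨c, i, hc, hi0, hi1, rfl⟩, ht⟩
    refine ⟨c, hc, i, hi0, hi1, ?_⟩
    have e : t - K * (2 * c + σ c) - i * (K + L + 2) =
      t - (K * (2 * c + σ c) + i * (K + L + 2)) := by ring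
    rwa [e]
  · rintro ⟨c, hc, i, hi0, hi1, ht⟩
    refine ⟨_, ⟨c, i, hc, hi0, hi1, rfl⟩, ?_⟩
    have e : t - K * (2 * c + σ c) - i * (K + L + 2) =
      t - (K * (2 * c + σ c) + i * (K + L + 2)) := by ring
    rwa [e] at ht

theorem til_PB (K L : ℤ) (hK : 1 ≤ K) (hL : 1 ≤ L) (σ : ℤ → ℤ) (hσ : ∀ c, σ c = 0 ∨ σ c = 1)
    (y : ℤ) : Til K L {t | PB K L σ y t} := by
  have hmix := til_mix K L ∅ {s | ∃ c i, c % (K + L + 1) = y % (K + L + 1) ∧ 0 ≤ i ∧ i < K ∧
      s = K * (2 * c + σ c) + i * (K + L + 2) + (K + 1)} hK hL (by intro s h _; exact h) (by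
    rintro s s' (h | h) (h' | h') hlt
    · exact h.elim
    · exact h.elim
    · exact h'.elim
    · obtain ⟨c, i, hc, hi0, hi1, rfl⟩ := h
      obtain ⟨c', i', hc', hi0', hi1', rfl⟩ := h'
      rcases lt_trichotomy c c' with hcc | hcc | hcc
      · have := spacing K L hK hL _ _ i i' hi0 hi1 hi0' hi1' (sep K L hK hL σ hσ y c c' hc hc' hcc)
        omega
      · subst hcc
        have hii : i < i' := by
          by_contra hle
          push Not at hle
          have : i' * (K + L + 2) ≤ i * (K + L + 2) := mul_le_mul_of_nonneg_right hle (by omega)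
          omega
        have : (i + 1) * (K + L + 2) ≤ i' * (K + L + 2) :=
          mul_le_mul_of_nonneg_right (by omega) (by omega)
        have e : (i + 1) * (K + L + 2) = i * (K + L + 2) + (K + L + 2) := by ring
        omega
      · have := spacing K L hK hL _ _ i' i hi0' hi1' hi0 hi1 (sep K L hK hL σ hσ y c' c hc' hc hcc)
        omega)
  refine til_congr ?_ hmix
  ext t
  simp only [Set.mem_ofPred_eq, Set.mem_empty_iff_false, false_and, exists_false, false_or]
  constructor
  · rintro ⟨s, ⟨c, i, hc, hi0, hi1, rfl⟩, ht⟩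
    refine ⟨c, hc, i, hi0, hi1, ?_⟩
    have e : K + 1 + i * (K + L + 2) + (K + L) - (t - K * (2 * c + σ c)) =
      K * (2 * c + σ c) + i * (K + L + 2) + (K + 1) + (K + L) - t := by ring
    rwa [e]
  · rintro ⟨c, hc, i, hi0, hi1, ht⟩
    refine ⟨_, ⟨c, i, hc, hi0, hi1, rfl⟩, ?_⟩
    have e : K + 1 + i * (K + L + 2) + (K + L) - (t - K * (2 * c + σ c)) =
      K * (2 * c + σ c) + i * (K + L + 2) + (K + 1) + (K + L) - t := by ring
    rwa [e] at ht

/-- at each time the two families differ in exactly one row -/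
theorem row (K L : ℤ) (hK : 1 ≤ K) (hL : 1 ≤ L) (σ : ℤ → ℤ) (D' : ℤ)
    (hσ : ∀ c, σ c = 0 ∨ σ c = 1)
    (hs : ∀ c, 2 * c + σ c + (K + L + 2) = 2 * (c + D') + 1 - σ (c + D')) (t : ℤ) :
    ∃ R : ℤ, ∀ y, (PF K L σ y t ↔ PB K L σ y t) ↔ y % (K + L + 1) ≠ R % (K + L + 1) := by
  have h0 := Int.emod_nonneg t (by omega : K ≠ 0)
  have h1 := Int.emod_lt_of_pos t (by omega : 0 < K)
  have h2 := Int.mul_ediv_add_emod t K
  set v := t % K with hv
  set b := t / K with hb
  clear_value v b
  have ht : ∀ c, t - K * (2 * c + σ c) = K * (b - (2 * c + σ c)) + v := by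
    intro c; rw [← h2]; ring
  -- the chain which is odd at time t
  obtain ⟨R, hR1, hR2⟩ : ∃ R, (b = 2 * R + σ R ∨ b = 2 * R + σ R + (K + L + 2)) ∧
      ∀ c, (b = 2 * c + σ c ∨ b = 2 * c + σ c + (K + L + 2)) → c = R := by
    by_cases hc : b = 2 * (b / 2) + σ (b / 2)
    · refine ⟨b / 2, Or.inl hc, ?_⟩
      rintro c (h | h)
      · rcases hσ c with h' | h' <;> omega
      · rw [hs c] at h
        have hcc : c + D' = b / 2 := by rcases hσ (c + D') with h' | h' <;> omega
        rw [hcc] at h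
        rcases hσ (b / 2) with h' | h' <;> omega
    · have e := hs (b / 2 - D')
      have e2 : b / 2 - D' + D' = b / 2 := by ring
      rw [e2] at e
      refine ⟨b / 2 - D', Or.inr ?_, ?_⟩
      · rw [e]
        rcases hσ (b / 2) with h' | h' <;> omega
      · rintro c (h | h)
        · exfalso
          have hcc : c = b / 2 := by rcases hσ c with h' | h' <;> omega
          rw [hcc] at h
          exact hc h
        · rw [hs c] at h
          have hcc : c + D' = b / 2 := by rcases hσ (c + D') with h' | h' <;> omega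
          omega
  have hxor : ∀ c, (Fon K L (t - K * (2 * c + σ c)) ↔ Bon K L (t - K * (2 * c + σ c))) ↔ c ≠ R := by
    intro c
    rw [ht c, FB_xor K L hK hL _ v h0 h1]
    constructor
    · intro h hcR
      apply h
      rw [hcR]
      rcases hR1 with h' | h'
      · left; omega
      · right; omega
    · intro h hh
      apply h
      apply hR2
      rcases hh with h' | h'
      · left; omega
      · right; omega
  have hprog : ∀ c, c % (K + L + 1) = R % (K + L + 1) →
      (Fon K L (t - K * (2 * c + σ c)) ∨ Bon K L (t - K * (2 * c + σ c))) → c = R := by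
    intro c hc hon
    have hr : 0 ≤ b - (2 * c + σ c) ∧ b - (2 * c + σ c) ≤ K + L + 2 := by
      rw [ht c] at hon
      rcases hon with h | h
      · exact Fon_range K L hK hL _ v h0 h1 h
      · exact Bon_range K L hK hL _ v h0 h1 h
    rcases lt_trichotomy c R with h | h | h
    · have := sep K L hK hL σ hσ R c R hc rfl h
      omega
    · exact h
    · have := sep K L hK hL σ hσ R R c rfl hc h
      omega
  refine ⟨R, fun y => ⟨?_, ?_⟩⟩
  · intro hiff hy
    have hRx := (hxor R).not.2 (by simp)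
    apply hRx
    constructor
    · intro hF
      obtain ⟨c, hc, hB⟩ := hiff.1 ⟨R, hy.symm, hF⟩
      have := hprog c (by rw [hc, hy]) (Or.inr hB)
      rwa [this] at hB
    · intro hB
      obtain ⟨c, hc, hF⟩ := hiff.2 ⟨R, hy.symm, hB⟩
      have := hprog c (by rw [hc, hy]) (Or.inl hF)
      rwa [this] at hF
  · intro hy
    constructor
    · rintro ⟨c, hc, hF⟩
      refine ⟨c, hc, ((hxor c).2 ?_).1 hF⟩
      rintro rfl
      exact hy hc.symm
    · rintro ⟨c, hc, hB⟩
      refine ⟨c, hc, ((hxor c).2 ?_).2 hB⟩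
      rintro rfl
      exact hy hc.symm

end Pool.Agent.H36R3.Punc
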