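import Mathlib

set_option autoImplicit false

open Set Metric Filter Topology

namespace Pool.Agent.H36R3

variable {V : Type*} [NormedAddCommGroup V] [NormedSpace ℝ V]

/-- `y` is a viewer of `E` inside the open ball `ball x r`: from every point of `E` in that ball
one can move towards `y` inside `E` as long as one stays in the ball. -/
def LocView (E : Set V) (x : V) (r : ℝ) : Set V :=
  {y | ∀ z ∈ E ∩ ball x r, ∀ w ∈ segment ℝ z y, w ∈ ball x r → w ∈ E}

lemma LocView.mono {E : Set V} {x : V} {r r' : ℝ} (h : r' ≤ r) :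
    LocView E x r ⊆ LocView E x r' := by
  intro y hy z hz w hw hwB
  exact hy z ⟨hz.1, ball_subset_ball h hz.2⟩ w hw (ball_subset_ball h hwB)

lemma convex_locView {E : Set V} (hE : IsClosed E) (x : V) (r : ℝ) :
    Convex ℝ (LocView E x r) := by
  intro y1 h1 y2 h2 a b ha hb hab z hz w hw hwB
  set y : V := a • y1 + b • y2 with hy
  rw [segment_eq_image_lineMap] at hw
  obtain ⟨s, hs, rfl⟩ := hw
  have hzB := hz.2
  have hcont : Continuous (fun t : ℝ => AffineMap.lineMap z y t) := AffineMap.lineMap_continuous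
  have hinB : ∀ t ∈ Icc (0:ℝ) s, AffineMap.lineMap z y t ∈ ball x r := by
    intro t ht
    have hseg : AffineMap.lineMap z y t ∈ segment ℝ z (AffineMap.lineMap z y s) := by
      rw [segment_eq_image_lineMap]
      rcases eq_or_lt_of_le hs.1 with h0 | h0
      · refine ⟨0, by simp, ?_⟩
        have : t = 0 := le_antisymm (by rw [h0]; exact ht.2) ht.1
        subst this; simp
      · refine ⟨t / s, ⟨div_nonneg ht.1 hs.1, div_le_one_of_le₀ ht.2 hs.1⟩, ?_⟩
        simp only [AffineMap.lineMap_apply_module']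
        rw [add_sub_cancel_right, smul_smul, div_mul_cancel₀ _ h0.ne']
    exact (convex_ball x r).segment_subset hzB hwB hseg
  have key : Icc (0:ℝ) s ⊆ {t | AffineMap.lineMap z y t ∈ E} := by
    refine IsClosed.Icc_subset_of_forall_mem_nhdsWithin ?_ ?_ ?_
    · exact (hE.preimage hcont).inter isClosed_Icc
    · simpa using hz.1
    · rintro t ⟨htE, ht⟩
      have ht1 : 0 < 1 - t := by linarith [ht.2, hs.2]
      set q : V := AffineMap.lineMap z y t with hq
      have hqB : q ∈ ball x r := hinB t ⟨ht.1, ht.2.le⟩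
      -- the reparametrisation
      have hσ : Tendsto (fun t' : ℝ => (t' - t) / (1 - t)) (𝓝[>] t) (𝓝 0) := by
        have : Continuous (fun t' : ℝ => (t' - t) / (1 - t)) := by fun_prop
        have h := this.tendsto t
        simp only [sub_self, zero_div] at h
        exact h.mono_left nhdsWithin_le_nhds
      have hc : Tendsto (fun σ : ℝ => q + ((σ * a) / (1 - σ * b)) • (y1 - q)) (𝓝 0) (𝓝 q) := by
        have : ContinuousAt (fun σ : ℝ => q + ((σ * a) / (1 - σ * b)) • (y1 - q)) 0 := by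
          refine continuousAt_const.add (ContinuousAt.smul (ContinuousAt.div ?_ ?_ ?_)
            continuousAt_const)
          · fun_prop
          · fun_prop
          · simp
        have h := this.tendsto
        simpa using h
      have e1 : ∀ᶠ t' in 𝓝[>] t, q + ((((t' - t) / (1 - t)) * a) /
          (1 - ((t' - t) / (1 - t)) * b)) • (y1 - q) ∈ ball x r :=
        (hc.comp hσ).eventually (isOpen_ball.mem_nhds hqB)
      have e2 : ∀ᶠ t' in 𝓝[>] t, (t' - t) / (1 - t) < 1 / 2 :=
        hσ.eventually (gt_mem_nhds (by norm_num))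
      have e3 : ∀ᶠ t' in 𝓝[>] t, AffineMap.lineMap z y t' ∈ ball x r := by
        have : Tendsto (fun t' : ℝ => AffineMap.lineMap z y t') (𝓝[>] t) (𝓝 q) :=
          (hcont.tendsto t).mono_left nhdsWithin_le_nhds
        exact this.eventually (isOpen_ball.mem_nhds hqB)
      have e4 : ∀ᶠ t' in 𝓝[>] t, t < t' := eventually_mem_nhdsWithin
      filter_upwards [e1, e2, e3, e4] with t' h1' h2' h3' h4'
      set σ : ℝ := (t' - t) / (1 - t) with hσdef
      have hσ0 : 0 ≤ σ := div_nonneg (by linarith) ht1.le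
      have hb1 : b ≤ 1 := by linarith
      have hd : 0 < 1 - σ * b := by nlinarith
      set c : V := q + ((σ * a) / (1 - σ * b)) • (y1 - q) with hcdef
      have hcE : c ∈ E := by
        refine h1 q ⟨htE, hqB⟩ c ?_ h1'
        rw [segment_eq_image']
        refine ⟨(σ * a) / (1 - σ * b), ⟨div_nonneg (mul_nonneg hσ0 ha) hd.le, ?_⟩, rfl⟩
        rw [div_le_one hd]
        nlinarith
      have hpe : AffineMap.lineMap z y t' = c + (σ * b) • (y2 - c) := by
        have hσt : σ * (1 - t) = t' - t := div_mul_cancel₀ _ ht1.ne'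
        have e5 : AffineMap.lineMap z y t' = q + σ • (y - q) := by
          simp only [hq, AffineMap.lineMap_apply_module']
          have : t' = t + σ * (1 - t) := by linarith
          rw [this]
          module
        rw [e5, hcdef, hy]
        have h6 : ((σ * a) / (1 - σ * b)) * (1 - σ * b) = σ * a := div_mul_cancel₀ _ hd.ne'
        have h7 : c + (σ * b) • (y2 - c) = (1 - σ * b) • c + (σ * b) • y2 := by module
        have h8 : (1 - σ * b) • c = (1 - σ * b) • q + (σ * a) • (y1 - q) := by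
          rw [hcdef, smul_add, smul_smul, mul_comm (1 - σ * b), h6]
        rw [← hcdef, h7, h8]
        have ha' : a = 1 - b := by linarith
        rw [ha']
        module
      show AffineMap.lineMap z y t' ∈ E
      refine h2 c ⟨hcE, h1'⟩ _ ?_ h3'
      rw [hpe, segment_eq_image']
      exact ⟨σ * b, ⟨mul_nonneg hσ0 hb, by nlinarith⟩, rfl⟩
  exact key ⟨hs.1, le_refl s⟩

/-- Local dichotomy at scale `R` with respect to the point `y0`. -/
def Good (E : Set V) (y0 : V) (R : ℝ) : Prop :=
  ∀ z ∈ E, Convex ℝ (ball z R ∩ E) ∨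
    ∀ q ∈ E ∩ ball z R, ∀ᶠ τ in 𝓝[>] (0:ℝ), AffineMap.lineMap q y0 τ ∈ E

lemma exists_good {E : Set V} (hE : IsCompact E) {y0 : V}
    (h : ∀ z ∈ E, ∃ r > 0, Convex ℝ (ball z r ∩ E) ∨ y0 ∈ LocView E z r) :
    ∃ R > 0, Good E y0 R := by
  choose! r hr0 hr using h
  obtain ⟨δ, hδ, hcov⟩ := lebesgue_number_lemma_of_metric (c := fun z : E => ball (z:V) (r z)) hE
    (fun _ => isOpen_ball) (by
      intro z hz
      exact mem_iUnion.2 ⟨⟨z, hz⟩, mem_ball_self (hr0 z hz)⟩)
  refine ⟨δ, hδ, fun z hz => ?_⟩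
  obtain ⟨⟨c, hc⟩, hsub⟩ := hcov z hz
  rcases hr c hc with hconv | hview
  · left
    have : ball z δ ∩ E = ball z δ ∩ (ball c (r c) ∩ E) := by
      ext w
      constructor
      · rintro ⟨h1, h2⟩; exact ⟨h1, hsub h1, h2⟩
      · rintro ⟨h1, -, h2⟩; exact ⟨h1, h2⟩
    rw [this]
    exact (convex_ball z δ).inter hconv
  · right
    intro q hq
    have hqB : q ∈ ball c (r c) := hsub hq.2
    have hcont : Continuous (fun t : ℝ => AffineMap.lineMap q y0 t) := AffineMap.lineMap_continuous
    have h1 : ∀ᶠ τ in 𝓝[>] (0:ℝ), AffineMap.lineMap q y0 τ ∈ ball c (r c) := by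
      have h2 : Tendsto (fun t : ℝ => AffineMap.lineMap q y0 t) (𝓝[>] (0:ℝ)) (𝓝 q) := by
        have := hcont.tendsto 0
        simp only [AffineMap.lineMap_apply_zero] at this
        exact this.mono_left nhdsWithin_le_nhds
      exact h2.eventually (isOpen_ball.mem_nhds hqB)
    have h3 : ∀ᶠ τ in 𝓝[>] (0:ℝ), τ < 1 := by
      have : Tendsto (fun t : ℝ => t) (𝓝[>] (0:ℝ)) (𝓝 0) := nhdsWithin_le_nhds
      exact this.eventually (gt_mem_nhds one_pos)
    have h4 : ∀ᶠ τ in 𝓝[>] (0:ℝ), 0 < τ := eventually_mem_nhdsWithin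
    filter_upwards [h1, h3, h4] with τ h1' h3' h4'
    refine hview q ⟨hq.1, hqB⟩ _ ?_ h1'
    rw [segment_eq_image_lineMap]
    exact ⟨τ, ⟨h4'.le, h3'.le⟩, rfl⟩

lemma Good.mono {E : Set V} {y0 : V} {R R' : ℝ} (h : R' ≤ R) (hG : Good E y0 R) :
    Good E y0 R' := by
  intro z hz
  rcases hG z hz with hconv | hpush
  · left
    have : ball z R' ∩ E = ball z R' ∩ (ball z R ∩ E) := by
      ext w
      constructor
      · rintro ⟨h1, h2⟩; exact ⟨h1, ball_subset_ball h h1, h2⟩
      · rintro ⟨h1, -, h2⟩; exact ⟨h1, h2⟩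
    rw [this]
    exact (convex_ball z R').inter hconv
  · right
    intro q hq
    exact hpush q ⟨hq.1, ball_subset_ball h hq.2⟩

lemma ell_lineMap (l : V →L[ℝ] ℝ) (a b : V) (τ : ℝ) :
    l (AffineMap.lineMap a b τ) = (1 - τ) * l a + τ * l b := by
  rw [AffineMap.lineMap_apply_module]
  simp

/-- Claim A: a local maximum point of a functional `l` below the level of `y0` is a maximum on the
whole ball of radius `R`. -/
lemma local_max_ball {E : Set V} {y0 : V} {R : ℝ} (hR : 0 < R) (hG : Good E y0 R)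
    (l : V →L[ℝ] ℝ) {u : V} (hu : u ∈ E) (hlt : l u < l y0)
    (hloc : ∃ r > 0, ∀ z ∈ E, dist z u < r → l z ≤ l u) :
    ∀ z ∈ E, dist z u < R → l z ≤ l u := by
  obtain ⟨r, hr, hloc⟩ := hloc
  have hsmall : ∀ b : V, ∀ᶠ τ in 𝓝[>] (0:ℝ), dist (AffineMap.lineMap u b τ) u < r := by
    intro b
    have hcont : Continuous (fun t : ℝ => AffineMap.lineMap u b t) := AffineMap.lineMap_continuous
    have h2 : Tendsto (fun t : ℝ => AffineMap.lineMap u b t) (𝓝[>] (0:ℝ)) (𝓝 u) := by
      have := hcont.tendsto 0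
      simp only [AffineMap.lineMap_apply_zero] at this
      exact this.mono_left nhdsWithin_le_nhds
    exact h2.eventually (ball_mem_nhds u hr)
  have hpos : ∀ᶠ τ in 𝓝[>] (0:ℝ), 0 < τ := eventually_mem_nhdsWithin
  have hlt1 : ∀ᶠ τ in 𝓝[>] (0:ℝ), τ < 1 := by
    have : Tendsto (fun t : ℝ => t) (𝓝[>] (0:ℝ)) (𝓝 0) := nhdsWithin_le_nhds
    exact this.eventually (gt_mem_nhds one_pos)
  rcases hG u hu with hconv | hpush
  · intro z hz hzR
    by_contra hcon
    push Not at hcon
    obtain ⟨τ, h1, h2, h3⟩ := ((hsmall z).and (hpos.and hlt1)).exists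
    have hmem : AffineMap.lineMap u z τ ∈ ball u R ∩ E := by
      refine hconv.segment_subset ⟨mem_ball_self hR, hu⟩ ⟨hzR, hz⟩ ?_
      rw [segment_eq_image_lineMap]
      exact ⟨τ, ⟨h2.le, h3.le⟩, rfl⟩
    have := hloc _ hmem.2 h1
    rw [ell_lineMap] at this
    nlinarith
  · exfalso
    obtain ⟨τ, h1, h2, h3⟩ := ((hsmall y0).and (hpos.and (hpush u ⟨hu, mem_ball_self hR⟩))).exists
    have := hloc _ h3 h1
    rw [ell_lineMap] at this
    nlinarith

end Pool.Agent.H36R3
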