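import Mathlib
import Pool.Agent.H36R3.StarKey

set_option autoImplicit false

open Set Metric Filter Topology

namespace Pool.Agent.H36R3

variable {V : Type*} [NormedAddCommGroup V] [NormedSpace ℝ V]

/-- One step of a chain inside `E ∩ {t ≤ l}`. -/
def Rel (E : Set V) (l : V →L[ℝ] ℝ) (R t : ℝ) (x y : V) : Prop :=
  y ∈ E ∧ t ≤ l y ∧ dist x y < R

/-- Points reachable from `M` by a chain inside `E ∩ {t ≤ l}`. -/
def Reach (E M : Set V) (l : V →L[ℝ] ℝ) (R t : ℝ) (z : V) : Prop :=
  ∃ u ∈ M, Relation.ReflTransGen (Rel E l R t) u z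

lemma Reach.mono {E M : Set V} {l : V →L[ℝ] ℝ} {R t t' : ℝ} (h : t ≤ t') {z : V}
    (hz : Reach E M l R t' z) : Reach E M l R t z := by
  obtain ⟨u, hu, hc⟩ := hz
  have hle : Rel E l R t' ≤ Rel E l R t := fun a b hab => ⟨hab.1, h.trans hab.2.1, hab.2.2⟩
  exact ⟨u, hu, Relation.ReflTransGen.mono hle _ _ hc⟩

lemma Reach.step {E M : Set V} {l : V →L[ℝ] ℝ} {R t : ℝ} {a b : V}
    (ha : Reach E M l R t a) (hb : Rel E l R t a b) : Reach E M l R t b := by
  obtain ⟨u, hu, hc⟩ := ha
  exact ⟨u, hu, hc.tail hb⟩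

lemma tendsto_lineMap_zero (a b : V) :
    Tendsto (fun t : ℝ => AffineMap.lineMap a b t) (𝓝[>] (0:ℝ)) (𝓝 a) := by
  have hcont : Continuous (fun t : ℝ => AffineMap.lineMap a b t) := AffineMap.lineMap_continuous
  have := hcont.tendsto 0
  simp only [AffineMap.lineMap_apply_zero] at this
  exact this.mono_left nhdsWithin_le_nhds

lemma eventually_lt_one : ∀ᶠ τ in 𝓝[>] (0:ℝ), τ < 1 := by
  have : Tendsto (fun t : ℝ => t) (𝓝[>] (0:ℝ)) (𝓝 0) := nhdsWithin_le_nhds
  exact this.eventually (gt_mem_nhds one_pos)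

/-- Step 1: chain-separation passes to the limit level from above. -/
lemma limit_level {E M B : Set V} (hE : IsClosed E) {y0 : V} {R : ℝ} (hR : 0 < R)
    (hG : Good E y0 R) (l : V →L[ℝ] ℝ) {s T : ℝ} (hTs : T < s) (hs : s < l y0)
    (hM : ∀ u ∈ M, u ∈ E ∧ l u = s) (hB : ∀ z ∈ B, z ∈ E ∧ s ≤ l z)
    (hsep : ∀ t, T < t → t ≤ s → ∀ z, Reach E M l R t z → z ∉ B) :
    ∀ z, Reach E M l R T z → z ∉ B := by
  set A : Set V := {a | a ∈ E ∧ T < l a ∧ ∃ t, T < t ∧ t ≤ s ∧ Reach E M l R t a} with hA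
  have hstep : ∀ a ∈ A, ∀ b ∈ E, T < l b → dist a b < R → b ∈ A := by
    rintro a ⟨haE, haT, t, h1, h2, h3⟩ b hbE hbT hab
    refine ⟨hbE, hbT, min t (l b), lt_min h1 hbT, (min_le_left _ _).trans h2, ?_⟩
    exact (h3.mono (min_le_left _ _)).step ⟨hbE, min_le_right _ _, hab⟩
  have hAE : closure A ⊆ E := by
    refine closure_minimal ?_ hE
    rintro a ha; exact ha.1
  have hclo : ∀ u ∈ M, ∀ z, Relation.ReflTransGen (Rel E l R T) u z → z ∈ closure A := by
    intro u hu z hz
    induction hz with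
    | refl =>
      refine subset_closure ⟨(hM u hu).1, by rw [(hM u hu).2]; exact hTs, s, hTs, le_refl s,
        u, hu, Relation.ReflTransGen.refl⟩
    | @tail q q' _ hqq' ih =>
      obtain ⟨hq'E, hq'T, hd⟩ := hqq'
      have hqE : q ∈ E := hAE ih
      obtain ⟨a, haA, hda⟩ := Metric.mem_closure_iff.1 ih (R - dist q q') (by linarith)
      have hdaq : dist a q' < R := by
        calc dist a q' ≤ dist a q + dist q q' := dist_triangle _ _ _
          _ < R := by rw [dist_comm a q]; linarith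
      rcases lt_or_eq_of_le hq'T with hlt | heq
      · exact subset_closure (hstep a haA q' hq'E hlt hdaq)
      · rcases hG q hqE with hconv | hpush
        · -- convex case
          have haB : a ∈ ball q R ∩ E := by
            refine ⟨?_, haA.1⟩
            rw [mem_ball, dist_comm]
            have := dist_nonneg (x := q) (y := q')
            linarith
          have hq'B : q' ∈ ball q R ∩ E := ⟨by rw [mem_ball, dist_comm]; exact hd, hq'E⟩
          refine mem_closure_of_tendsto (tendsto_lineMap_zero q' a) ?_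
          filter_upwards [eventually_lt_one, eventually_mem_nhdsWithin] with τ h1 h2
          have h2' : (0:ℝ) < τ := h2
          have hwE : AffineMap.lineMap q' a τ ∈ ball q R ∩ E := by
            refine hconv.segment_subset hq'B haB ?_
            rw [segment_eq_image_lineMap]
            exact ⟨τ, ⟨h2'.le, h1.le⟩, rfl⟩
          refine hstep a haA _ hwE.2 ?_ ?_
          · rw [ell_lineMap, ← heq]
            have := haA.2.1
            nlinarith
          · rw [dist_comm, dist_lineMap_right, Real.norm_eq_abs, abs_of_nonneg (by linarith),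
              dist_comm q' a]
            have := dist_nonneg (x := a) (y := q')
            nlinarith
        · -- push case
          have hp := hpush q' ⟨hq'E, by rw [mem_ball, dist_comm]; exact hd⟩
          refine mem_closure_of_tendsto (tendsto_lineMap_zero q' y0) ?_
          have hdist : ∀ᶠ τ in 𝓝[>] (0:ℝ), AffineMap.lineMap q' y0 τ ∈ ball a R :=
            (tendsto_lineMap_zero q' y0).eventually
              (isOpen_ball.mem_nhds (by rw [mem_ball, dist_comm]; exact hdaq))
          filter_upwards [hp, hdist, eventually_mem_nhdsWithin] with τ h1 h2 h3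
          have h3' : (0:ℝ) < τ := h3
          refine hstep a haA _ h1 ?_ (by rw [dist_comm]; exact h2)
          rw [ell_lineMap, ← heq]
          nlinarith
  rintro z ⟨u, hu, hc⟩ hzB
  have hzc := hclo u hu z hc
  obtain ⟨a, haA, hda⟩ := Metric.mem_closure_iff.1 hzc R hR
  have hzA : z ∈ A := hstep a haA z (hB z hzB).1 (lt_of_lt_of_le hTs (hB z hzB).2)
    (by rw [dist_comm]; exact hda)
  obtain ⟨_, _, t, h1, h2, h3⟩ := hzA
  exact hsep t h1 h2 z h3 hzB

/-- Step 2: chain-separation at level `T` extends slightly below `T`. -/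
lemma below_level {E M B : Set V} (hE : IsCompact E) {y0 : V} {R : ℝ} (hR : 0 < R)
    (hG : Good E y0 (2 * R)) (l : V →L[ℝ] ℝ) {s T : ℝ} (hTs : T ≤ s) (hs : s < l y0)
    (hM : ∀ u ∈ M, u ∈ E ∧ l u = s) (hB : ∀ z ∈ B, z ∈ E ∧ s ≤ l z)
    (hsep : ∀ z, Reach E M l R T z → z ∉ B) :
    ∃ η > 0, ∀ z, Reach E M l R (T - η) z → z ∉ B := by
  set A : Set V := {z | z ∈ E ∧ T ≤ l z ∧ Reach E M l R T z} with hA
  set C : Set V := {z | z ∈ E ∧ T ≤ l z ∧ ¬ Reach E M l R T z} with hC
  have hF : IsClosed {z | z ∈ E ∧ T ≤ l z} :=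
    hE.isClosed.inter (isClosed_le continuous_const l.continuous)
  have hAcl : IsClosed A := by
    rw [← closure_subset_iff_isClosed]
    intro z hz
    have hzF : z ∈ {z | z ∈ E ∧ T ≤ l z} := by
      refine closure_minimal ?_ hF hz
      rintro a ⟨h1, h2, _⟩; exact ⟨h1, h2⟩
    obtain ⟨a, haA, hda⟩ := Metric.mem_closure_iff.1 hz R hR
    exact ⟨hzF.1, hzF.2, haA.2.2.step ⟨hzF.1, hzF.2, by rw [dist_comm]; exact hda⟩⟩
  have hCcl : IsClosed C := by
    rw [← closure_subset_iff_isClosed]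
    intro z hz
    have hzF : z ∈ {z | z ∈ E ∧ T ≤ l z} := by
      refine closure_minimal ?_ hF hz
      rintro a ⟨h1, h2, _⟩; exact ⟨h1, h2⟩
    refine ⟨hzF.1, hzF.2, fun hcon => ?_⟩
    obtain ⟨c, hcC, hdc⟩ := Metric.mem_closure_iff.1 hz R hR
    exact hcC.2.2 (hcon.step ⟨hcC.1, hcC.2.1, hdc⟩)
  have hAc : IsCompact A := hE.of_isClosed_subset hAcl (fun z hz => hz.1)
  have hCc : IsCompact C := hE.of_isClosed_subset hCcl (fun z hz => hz.1)
  -- strict separation
  have hstrict : ∀ a ∈ A, ∀ c ∈ C, R < dist a c := by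
    intro a ha c hc
    by_contra hcon
    push Not at hcon
    have hcB : c ∈ ball a (2 * R) := by rw [mem_ball, dist_comm]; linarith
    rcases hG a ha.1 with hconv | hpush
    · have hw : AffineMap.lineMap a c (1/2 : ℝ) ∈ ball a (2 * R) ∩ E := by
        refine hconv.segment_subset ⟨mem_ball_self (by linarith), ha.1⟩ ⟨hcB, hc.1⟩ ?_
        rw [segment_eq_image_lineMap]
        exact ⟨1/2, ⟨by norm_num, by norm_num⟩, rfl⟩
      have hd0 := dist_nonneg (x := a) (y := c)
      have hl : T ≤ l (AffineMap.lineMap a c (1/2 : ℝ)) := by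
        rw [ell_lineMap]
        have h1 := ha.2.1
        have h2 := hc.2.1
        linarith
      have h1 : Reach E M l R T (AffineMap.lineMap a c (1/2 : ℝ)) := by
        refine ha.2.2.step ⟨hw.2, hl, ?_⟩
        rw [dist_left_lineMap, Real.norm_eq_abs, abs_of_nonneg (by norm_num)]
        linarith
      refine hc.2.2 (h1.step ⟨hc.1, hc.2.1, ?_⟩)
      rw [dist_lineMap_right, Real.norm_eq_abs, abs_of_nonneg (by norm_num)]
      linarith
    · have p1 := hpush a ⟨ha.1, mem_ball_self (by linarith)⟩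
      have p2 := hpush c ⟨hc.1, hcB⟩
      have d1 : ∀ᶠ τ in 𝓝[>] (0:ℝ), AffineMap.lineMap a y0 τ ∈ ball a R :=
        (tendsto_lineMap_zero a y0).eventually (ball_mem_nhds a hR)
      have d2 : ∀ᶠ τ in 𝓝[>] (0:ℝ), AffineMap.lineMap c y0 τ ∈ ball c R :=
        (tendsto_lineMap_zero c y0).eventually (ball_mem_nhds c hR)
      have hpos : ∀ᶠ τ in 𝓝[>] (0:ℝ), 0 < τ := eventually_mem_nhdsWithin
      obtain ⟨τ, q1, q2, q3, q4, q5, q6⟩ :=
        (p1.and (p2.and (d1.and (d2.and (hpos.and eventually_lt_one))))).exists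
      have la : T ≤ l (AffineMap.lineMap a y0 τ) := by
        rw [ell_lineMap]
        have h1 := ha.2.1
        nlinarith
      have lc : T ≤ l (AffineMap.lineMap c y0 τ) := by
        rw [ell_lineMap]
        have h1 := hc.2.1
        nlinarith
      have h1 : Reach E M l R T (AffineMap.lineMap a y0 τ) :=
        ha.2.2.step ⟨q1, la, by rw [dist_comm]; exact q3⟩
      have h2 : Reach E M l R T (AffineMap.lineMap c y0 τ) := by
        refine h1.step ⟨q2, lc, ?_⟩
        have : dist (AffineMap.lineMap a y0 τ) (AffineMap.lineMap c y0 τ) =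
            (1 - τ) * dist a c := by
          rw [dist_eq_norm, dist_eq_norm, AffineMap.lineMap_apply_module,
            AffineMap.lineMap_apply_module]
          have : (1 - τ) • a + τ • y0 - ((1 - τ) • c + τ • y0) = (1 - τ) • (a - c) := by module
          rw [this, norm_smul, Real.norm_eq_abs, abs_of_nonneg (by linarith)]
        rw [this]
        have hd0 := dist_nonneg (x := a) (y := c)
        nlinarith
      exact hc.2.2 (h2.step ⟨hc.1, hc.2.1, q4⟩)
  have hunif : ∃ ρ, R < ρ ∧ ∀ a ∈ A, ∀ c ∈ C, ρ ≤ dist a c := by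
    rcases (A ×ˢ C).eq_empty_or_nonempty with hemp | hne
    · refine ⟨R + 1, by linarith, fun a ha c hc => ?_⟩
      exfalso
      have : (a, c) ∈ A ×ˢ C := ⟨ha, hc⟩
      rw [hemp] at this
      exact this
    · obtain ⟨⟨a, c⟩, hac, hmin⟩ := (hAc.prod hCc).exists_isMinOn hne
        (continuous_dist.continuousOn (s := A ×ˢ C))
      refine ⟨dist a c, hstrict a hac.1 c hac.2, fun a' ha' c' hc' => ?_⟩
      exact hmin (show ((a', c') : V × V) ∈ A ×ˢ C from ⟨ha', hc'⟩)
  obtain ⟨ρ, hρR, hρ⟩ := hunif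
  set ε : ℝ := (ρ - R) / 3 with hε
  have hεpos : 0 < ε := by rw [hε]; linarith
  -- neighbourhoods of the superlevel set
  have hη : ∃ η > 0, ∀ z ∈ E, T - η ≤ l z → ∃ z' ∈ E, T ≤ l z' ∧ dist z z' < ε := by
    set F : Set V := {z | z ∈ E ∧ T ≤ l z} with hFdef
    set K : Set V := E \ thickening ε F with hK
    have hKc : IsCompact K := hE.diff isOpen_thickening
    have hKT : ∀ z ∈ K, l z < T := by
      intro z hz
      by_contra hcon
      push Not at hcon
      exact hz.2 (self_subset_thickening hεpos F ⟨hz.1, hcon⟩)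
    have hout : ∀ η > 0, (∀ z ∈ K, l z < T - η) → ∀ z ∈ E, T - η ≤ l z →
        ∃ z' ∈ E, T ≤ l z' ∧ dist z z' < ε := by
      intro η _ h z hz hlz
      by_contra hcon
      push Not at hcon
      have hzK : z ∈ K := by
        refine ⟨hz, fun hth => ?_⟩
        obtain ⟨z', hz', hd⟩ := mem_thickening_iff.1 hth
        exact absurd hd (not_lt.2 (hcon z' hz'.1 hz'.2))
      linarith [h z hzK]
    rcases K.eq_empty_or_nonempty with hemp | hne
    · refine ⟨1, one_pos, hout 1 one_pos ?_⟩
      rw [hemp]; intro z hz; exact absurd hz (notMem_empty z)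
    · obtain ⟨k, hk, hmax⟩ := hKc.exists_isMaxOn hne l.continuous.continuousOn
      have hk' := hKT k hk
      refine ⟨(T - l k) / 2, by linarith, hout _ (by linarith) ?_⟩
      intro z hz
      have := hmax hz
      simp only [mem_ofPred_eq] at this
      linarith
  obtain ⟨η, hηpos, hη⟩ := hη
  refine ⟨η, hηpos, ?_⟩
  rintro z ⟨u, hu, hc⟩ hzB
  have hnear : ∀ z, Relation.ReflTransGen (Rel E l R (T - η)) u z →
      ∃ a ∈ A, dist z a < ε := by
    intro z hz
    induction hz with
    | refl =>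
      refine ⟨u, ⟨(hM u hu).1, by rw [(hM u hu).2]; exact hTs, u, hu,
        Relation.ReflTransGen.refl⟩, by rw [dist_self]; exact hεpos⟩
    | @tail q q' _ hqq' ih =>
      obtain ⟨a, haA, hda⟩ := ih
      obtain ⟨z', hz'E, hz'T, hdz'⟩ := hη q' hqq'.1 hqq'.2.1
      refine ⟨z', ⟨hz'E, hz'T, ?_⟩, hdz'⟩
      by_contra hcon
      have h1 := hρ a haA z' ⟨hz'E, hz'T, hcon⟩
      have h2 : dist a z' ≤ dist a q + (dist q q' + dist q' z') :=
        (dist_triangle a q z').trans (by gcongr; exact dist_triangle _ _ _)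
      have h3 := hqq'.2.2
      rw [dist_comm a q] at h2
      have : ρ = R + 3 * ε := by rw [hε]; ring
      linarith
  obtain ⟨a, haA, hda⟩ := hnear z hc
  have hzE := hB z hzB
  by_cases hzr : Reach E M l R T z
  · exact hsep z hzr hzB
  · have h1 := hρ a haA z ⟨hzE.1, hTs.trans hzE.2, hzr⟩
    rw [dist_comm] at h1
    have : ρ = R + 3 * ε := by rw [hε]; ring
    linarith

/-- Key lemma: if `E` is compact, preconnected and locally either convex or pushable towards `y0`,
then a local maximum of a linear functional on `E` at a level below `y0` is a global maximum. -/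
lemma key_global_max {E : Set V} (hE : IsCompact E) (hconn : IsPreconnected E) {y0 : V} {R : ℝ}
    (hR : 0 < R) (hG : Good E y0 (2 * R)) (l : V →L[ℝ] ℝ) {v : V} (hv : v ∈ E)
    (hlt : l v < l y0) (hloc : ∃ r > 0, ∀ z ∈ E, dist z v < r → l z ≤ l v) :
    ∀ z ∈ E, l z ≤ l v := by
  by_contra hcon
  push Not at hcon
  obtain ⟨z1, hz1E, hz1⟩ := hcon
  set s : ℝ := l v with hs
  set M : Set V := {u | u ∈ E ∧ l u = s ∧ ∀ z ∈ E, dist z u < 2 * R → l z ≤ s} with hMdef
  set B : Set V := {z | z ∈ E ∧ s ≤ l z ∧ z ∉ M} with hBdef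
  have hvM : v ∈ M := by
    refine ⟨hv, rfl, ?_⟩
    exact local_max_ball (by linarith) hG l hv hlt hloc
  have hz1B : z1 ∈ B := ⟨hz1E, hz1.le, fun h => by linarith [h.2.1]⟩
  have hM' : ∀ u ∈ M, u ∈ E ∧ l u = s := fun u hu => ⟨hu.1, hu.2.1⟩
  have hB' : ∀ z ∈ B, z ∈ E ∧ s ≤ l z := fun z hz => ⟨hz.1, hz.2.1⟩
  -- separation at level `s`
  have hGs : ∀ z, Reach E M l R s z → z ∉ B := by
    rintro z ⟨u, hu, hc⟩ hzB
    have : z ∈ M := by
      clear hzB
      induction hc with
      | refl => exact hu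
      | @tail q q' _ hqq' ih =>
        obtain ⟨hq'E, hq's, hd⟩ := hqq'
        have hle : l q' ≤ s := ih.2.2 q' hq'E (by rw [dist_comm]; linarith)
        have heq : l q' = s := le_antisymm hle hq's
        refine ⟨hq'E, heq, ?_⟩
        rw [← heq]
        refine local_max_ball (by linarith) hG l hq'E (by rw [heq]; exact hlt) ⟨R, hR, ?_⟩
        intro z hz hzd
        rw [heq]
        refine ih.2.2 z hz ?_
        calc dist z q ≤ dist z q' + dist q' q := dist_triangle _ _ _
          _ < R + R := by rw [dist_comm q' q]; exact add_lt_add hzd hd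
          _ = 2 * R := by ring
    exact hzB.2.2 this
  -- a level where separation fails
  obtain ⟨m, hm⟩ : ∃ m, ∀ z ∈ E, m ≤ l z := by
    obtain ⟨k, hk, hmin⟩ := hE.exists_isMinOn ⟨v, hv⟩ l.continuous.continuousOn
    exact ⟨l k, fun z hz => hmin hz⟩
  have hreach : Reach E M l R m z1 := by
    refine ⟨v, hvM, ?_⟩
    refine hconn.induction₂' (fun x y => Relation.ReflTransGen (Rel E l R m) x y) ?_ ?_ hv hz1E
    · intro x hx
      have : ∀ᶠ y in 𝓝[E] x, y ∈ E ∧ y ∈ ball x R := by
        refine (eventually_mem_nhdsWithin).and ?_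
        exact mem_nhdsWithin_of_mem_nhds (ball_mem_nhds x hR)
      filter_upwards [this] with y hy
      refine ⟨Relation.ReflTransGen.single ⟨hy.1, hm y hy.1, ?_⟩,
        Relation.ReflTransGen.single ⟨hx, hm x hx, hy.2⟩⟩
      rw [dist_comm]; exact hy.2
    · intro x y z _ _ _ h1 h2
      exact h1.trans h2
  set S : Set ℝ := {t | t ≤ s ∧ ∀ z, Reach E M l R t z → z ∉ B} with hS
  have hSne : s ∈ S := ⟨le_refl s, hGs⟩
  have hSbdd : BddBelow S := by
    refine ⟨m, fun t ht => ?_⟩
    by_contra hcon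
    push Not at hcon
    exact ht.2 z1 (hreach.mono hcon.le) hz1B
  set T : ℝ := sInf S with hT
  have hTs : T ≤ s := csInf_le hSbdd hSne
  have habove : ∀ t, T < t → t ≤ s → ∀ z, Reach E M l R t z → z ∉ B := by
    intro t ht _ z hz
    obtain ⟨t', ht'S, ht't⟩ := exists_lt_of_csInf_lt ⟨s, hSne⟩ ht
    exact ht'S.2 z (hz.mono ht't.le)
  have hGT : ∀ z, Reach E M l R T z → z ∉ B := by
    rcases eq_or_lt_of_le hTs with heq | hlt'
    · rw [heq]; exact hGs
    · exact limit_level hE.isClosed hR (hG.mono (by linarith)) l hlt' hlt hM' hB' habove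
  obtain ⟨η, hηpos, hη⟩ := below_level hE hR hG l hTs hlt hM' hB' hGT
  have : T ≤ T - η := csInf_le hSbdd ⟨by linarith, hη⟩
  linarith

end Pool.Agent.H36R3
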