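import Mathlib
import Pool.Agent.H36R3.StarLevel

set_option autoImplicit false

open Set Metric Filter Topology

namespace Pool.Agent.H36R3

variable {V : Type*} [NormedAddCommGroup V] [InnerProductSpace ℝ V]

/-- If `p` is a point of `E` nearest to `y0` among the points of a set star-like around `p`, the
set lies in a half-space. -/
lemma inner_le_zero_of_nearest {y0 p z : V}
    (h : ∀ τ ∈ Icc (0:ℝ) 1, dist y0 p ≤ dist y0 (AffineMap.lineMap p z τ)) :
    inner ℝ (y0 - p) (z - p) ≤ 0 := by
  by_contra hcon
  push Not at hcon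
  set c : ℝ := inner ℝ (y0 - p) (z - p) with hc
  have hne : z - p ≠ 0 := by
    rintro h0
    rw [hc, h0, inner_zero_right] at hcon
    exact lt_irrefl _ hcon
  have hn : 0 < ‖z - p‖ ^ 2 := by positivity
  set τ : ℝ := min 1 (c / ‖z - p‖ ^ 2) with hτ
  have hτ0 : 0 < τ := lt_min one_pos (div_pos hcon hn)
  have hτ1 : τ ≤ 1 := min_le_left _ _
  have hτ2 : τ * ‖z - p‖ ^ 2 ≤ c := by
    have : τ ≤ c / ‖z - p‖ ^ 2 := min_le_right _ _
    calc τ * ‖z - p‖ ^ 2 ≤ c / ‖z - p‖ ^ 2 * ‖z - p‖ ^ 2 := by gcongr
      _ = c := div_mul_cancel₀ _ hn.ne'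
  have h1 := h τ ⟨hτ0.le, hτ1⟩
  rw [dist_eq_norm, dist_eq_norm] at h1
  have h2 : y0 - AffineMap.lineMap p z τ = (y0 - p) - τ • (z - p) := by
    rw [AffineMap.lineMap_apply_module']; abel
  rw [h2] at h1
  have h3 : ‖(y0 - p) - τ • (z - p)‖ ^ 2 = ‖y0 - p‖ ^ 2 - 2 * τ * c + τ ^ 2 * ‖z - p‖ ^ 2 := by
    rw [norm_sub_sq_real, real_inner_smul_right, norm_smul, Real.norm_eq_abs, mul_pow, sq_abs]
    ring
  have h4 : ‖y0 - p‖ ^ 2 ≤ ‖(y0 - p) - τ • (z - p)‖ ^ 2 := by gcongr
  rw [h3] at h4
  nlinarith

/-- If `E` is compact and preconnected, locally convex or pushable towards `y0`, and `y0` is in the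
convex hull of `E`, then `y0` lies in `E`. -/
lemma center_mem {E : Set V} (hE : IsCompact E) (hconn : IsPreconnected E) {y0 : V}
    (hy0 : y0 ∈ convexHull ℝ E) {R : ℝ} (hR : 0 < R) (hG : Good E y0 (2 * R)) : y0 ∈ E := by
  by_contra hy0E
  have hne : E.Nonempty := convexHull_nonempty_iff.1 ⟨y0, hy0⟩
  obtain ⟨p, hpE, hmin⟩ := hE.exists_isMinOn hne
    (continuous_const.dist continuous_id : Continuous (fun z : V => dist y0 z)).continuousOn
  have hmin' : ∀ z ∈ E, dist y0 p ≤ dist y0 z := fun z hz => hmin hz
  have hne : y0 - p ≠ 0 := by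
    intro h
    rw [sub_eq_zero] at h
    exact hy0E (h ▸ hpE)
  have hpos : 0 < ‖y0 - p‖ := norm_pos_iff.2 hne
  set l : V →L[ℝ] ℝ := innerSL ℝ (y0 - p) with hl
  have hlapp : ∀ z, l z = inner ℝ (y0 - p) z := fun z => by rw [hl, innerSL_apply_apply]
  have hlp : l p < l y0 := by
    have : l y0 - l p = ‖y0 - p‖ ^ 2 := by
      rw [hlapp, hlapp, ← inner_sub_right, real_inner_self_eq_norm_sq]
    nlinarith
  have hloc : ∃ r > 0, ∀ z ∈ E, dist z p < r → l z ≤ l p := by
    rcases hG p hpE with hconv | hpush
    · refine ⟨2 * R, by linarith, fun z hz hzd => ?_⟩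
      have : inner ℝ (y0 - p) (z - p) ≤ 0 := by
        refine inner_le_zero_of_nearest fun τ hτ => hmin' _ ?_
        have : AffineMap.lineMap p z τ ∈ ball p (2 * R) ∩ E := by
          refine hconv.segment_subset ⟨mem_ball_self (by linarith), hpE⟩ ⟨hzd, hz⟩ ?_
          rw [segment_eq_image_lineMap]
          exact ⟨τ, hτ, rfl⟩
        exact this.2
      rw [inner_sub_right] at this
      rw [hlapp, hlapp]
      linarith
    · exfalso
      obtain ⟨τ, h1, h2, h3⟩ := ((hpush p ⟨hpE, mem_ball_self (by linarith)⟩).and
        (eventually_lt_one.and (eventually_mem_nhdsWithin (a := (0:ℝ)) (s := Ioi 0)))).exists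
      have h3' : (0:ℝ) < τ := h3
      have := hmin' _ h1
      rw [dist_comm y0 (AffineMap.lineMap p y0 τ), dist_lineMap_right, Real.norm_eq_abs,
        abs_of_nonneg (by linarith), dist_comm p y0, dist_eq_norm] at this
      nlinarith
  have hmax := key_global_max hE hconn hR hG l hpE hlp hloc
  have : y0 ∈ {z | l z ≤ l p} := by
    refine convexHull_min (fun z hz => hmax z hz) ?_ hy0
    exact convex_halfSpace_le l.toLinearMap.isLinear (l p)
  have h := this
  simp only [mem_ofPred_eq] at h
  linarith

/-- If moreover `y0 ∈ E`, then `y0` sees every point of `E`. -/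
lemma center_sees {E : Set V} (hE : IsCompact E) (hconn : IsPreconnected E) {y0 : V}
    (hy0 : y0 ∈ E) {R : ℝ} (hR : 0 < R) (hG : Good E y0 (2 * R)) :
    ∀ u ∈ E, segment ℝ u y0 ⊆ E := by
  intro u hu
  have hcont : Continuous (fun t : ℝ => AffineMap.lineMap u y0 t) := AffineMap.lineMap_continuous
  have key : Icc (0:ℝ) 1 ⊆ {t | AffineMap.lineMap u y0 t ∈ E} := by
    refine IsClosed.Icc_subset_of_forall_mem_nhdsWithin ?_ ?_ ?_
    · exact (hE.isClosed.preimage hcont).inter isClosed_Icc
    · simpa using hu
    · rintro t ⟨htE, ht⟩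
      have ht1 : 0 < 1 - t := by linarith [ht.2]
      set v : V := AffineMap.lineMap u y0 t with hv
      have hvE : v ∈ E := htE
      have hre : ∀ t', AffineMap.lineMap u y0 t' =
          AffineMap.lineMap v y0 ((t' - t) / (1 - t)) := by
        intro t'
        have h1 : (t' - t) / (1 - t) * (1 - t) = t' - t := div_mul_cancel₀ _ ht1.ne'
        set σ := (t' - t) / (1 - t)
        have h2 : t' = t + σ * (1 - t) := by linarith
        rw [hv, h2]
        simp only [AffineMap.lineMap_apply_module']
        module
      have hσ : Tendsto (fun t' : ℝ => (t' - t) / (1 - t)) (𝓝[>] t) (𝓝[>] 0) := by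
        rw [tendsto_nhdsWithin_iff]
        constructor
        · have : Continuous (fun t' : ℝ => (t' - t) / (1 - t)) := by fun_prop
          have h := this.tendsto t
          simp only [sub_self, zero_div] at h
          exact h.mono_left nhdsWithin_le_nhds
        · filter_upwards [eventually_mem_nhdsWithin] with t' ht'
          have : t < t' := ht'
          exact div_pos (by linarith) ht1
      rcases hG v hvE with hconv | hpush
      · by_contra hcon
        have hfreq : ∃ᶠ t' in 𝓝[>] t, AffineMap.lineMap u y0 t' ∉ E := by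
          intro h
          apply hcon
          filter_upwards [h] with t' ht'
          simpa using ht'
        have hclose : ∀ᶠ t' in 𝓝[>] t, AffineMap.lineMap u y0 t' ∈ ball v (R / 4) := by
          have h1 : Tendsto (fun t' : ℝ => AffineMap.lineMap u y0 t') (𝓝[>] t) (𝓝 v) :=
            (hcont.tendsto t).mono_left nhdsWithin_le_nhds
          exact h1.eventually (ball_mem_nhds v (by linarith))
        have hlt1 : ∀ᶠ t' in 𝓝[>] t, (t' - t) / (1 - t) < 1 := hσ.eventually eventually_lt_one
        obtain ⟨t', ⟨hwE, hwB⟩, hτ1, ht't⟩ :=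
          ((hfreq.and_eventually hclose).and_eventually
            (hlt1.and eventually_mem_nhdsWithin)).exists
        have ht't' : t < t' := ht't
        set τ : ℝ := (t' - t) / (1 - t) with hτ
        have hτ0 : 0 < τ := div_pos (by linarith) ht1
        set w : V := AffineMap.lineMap u y0 t' with hw
        have hww : w = AffineMap.lineMap v y0 τ := hre t'
        set C : Set V := closedBall v R ∩ E with hC
        have hCc : IsCompact C := hE.inter_left isClosed_closedBall
        have hCconv : Convex ℝ C := by
          have : C = closedBall v R ∩ (ball v (2 * R) ∩ E) := by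
            ext x
            constructor
            · rintro ⟨h1, h2⟩
              exact ⟨h1, closedBall_subset_ball (by linarith) h1, h2⟩
            · rintro ⟨h1, -, h2⟩; exact ⟨h1, h2⟩
          rw [this]
          exact (convex_closedBall v R).inter hconv
        have hvC : v ∈ C := ⟨mem_closedBall_self hR.le, hvE⟩
        obtain ⟨v', hv'C, hmin⟩ := hCc.exists_isMinOn ⟨v, hvC⟩
          (continuous_const.dist continuous_id : Continuous (fun z : V => dist w z)).continuousOn
        have hmin' : ∀ z ∈ C, dist w v' ≤ dist w z := fun z hz => hmin hz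
        have hwv : dist w v < R / 4 := hwB
        have hv'v : dist v' v < R / 2 := by
          calc dist v' v ≤ dist v' w + dist w v := dist_triangle _ _ _
            _ < R / 4 + R / 4 := by
              refine add_lt_add ?_ hwv
              rw [dist_comm]; exact (hmin' v hvC).trans_lt hwv
            _ = R / 2 := by ring
        have hwv' : w - v' ≠ 0 := by
          intro h
          rw [sub_eq_zero] at h
          exact hwE (h ▸ hv'C.2)
        have hpos : 0 < ‖w - v'‖ := norm_pos_iff.2 hwv'
        set l : V →L[ℝ] ℝ := innerSL ℝ (w - v') with hl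
        have hlapp : ∀ z, l z = inner ℝ (w - v') z := fun z => by rw [hl, innerSL_apply_apply]
        have hinC : ∀ z ∈ C, l z ≤ l v' := by
          intro z hz
          have : inner ℝ (w - v') (z - v') ≤ 0 := by
            refine inner_le_zero_of_nearest fun σ hσ => hmin' _ ?_
            refine hCconv.segment_subset hv'C hz ?_
            rw [segment_eq_image_lineMap]
            exact ⟨σ, hσ, rfl⟩
          rw [inner_sub_right] at this
          rw [hlapp, hlapp]
          linarith
        have hlw : l w - l v' = ‖w - v'‖ ^ 2 := by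
          rw [hlapp, hlapp, ← inner_sub_right, real_inner_self_eq_norm_sq]
        have hlt : l v' < l y0 := by
          have h1 : l w = (1 - τ) * l v + τ * l y0 := by rw [hww, ell_lineMap]
          have h2 := hinC v hvC
          have h3 : 0 < ‖w - v'‖ ^ 2 := by positivity
          by_contra hcon2
          push Not at hcon2
          nlinarith
        have hloc : ∃ r > 0, ∀ z ∈ E, dist z v' < r → l z ≤ l v' := by
          refine ⟨R / 2, by linarith, fun z hz hzd => hinC z ⟨?_, hz⟩⟩
          rw [mem_closedBall]
          calc dist z v ≤ dist z v' + dist v' v := dist_triangle _ _ _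
            _ ≤ R := by linarith
        have := key_global_max hE hconn hR hG l hv'C.2 hlt hloc y0 hy0
        linarith
      · have hp := hσ.eventually (hpush v ⟨hvE, mem_ball_self (by linarith)⟩)
        filter_upwards [hp] with t' ht'
        show AffineMap.lineMap u y0 t' ∈ E
        rw [hre t']
        exact ht'
  rw [segment_eq_image_lineMap]
  rintro _ ⟨t, ht, rfl⟩
  exact key ht

end Pool.Agent.H36R3
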