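import Mathlib

set_option autoImplicit false

namespace Pool.H36R3.SymR

/-- Euclidean three-space. -/
abbrev E3 := EuclideanSpace ℝ (Fin 3)

/-- The segment from `a` to `b` is exposed in the convex hull of `T`. -/
def Ed (T : Set E3) (a b : E3) : Prop :=
  ∃ u : E3, @inner ℝ E3 _ u a = @inner ℝ E3 _ u b ∧
    ∀ z ∈ T, z ≠ a → z ≠ b → @inner ℝ E3 _ u z < @inner ℝ E3 _ u a

lemma exists_support {T : Set E3} (hT : T.Finite) {x : E3} (hx : x ∉ convexHull ℝ (T \ {x})) :
    ∃ u : E3, ∀ z ∈ T, z ≠ x → @inner ℝ E3 _ u z < @inner ℝ E3 _ u x := by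
  have hfin : (T \ {x}).Finite := hT.subset Set.sdiff_subset
  have hcl : IsClosed (convexHull ℝ (T \ {x})) := (hfin.isCompact_convexHull ℝ).isClosed
  obtain ⟨f, c, h1, h2⟩ := geometric_hahn_banach_closed_point (convex_convexHull ℝ _) hcl hx
  refine ⟨(InnerProductSpace.toDual ℝ E3).symm f, fun z hz hzx => ?_⟩
  rw [InnerProductSpace.toDual_symm_apply, InnerProductSpace.toDual_symm_apply]
  exact (h1 z (subset_convexHull ℝ _ ⟨hz, hzx⟩)).trans h2

lemma line_meets {T : Set E3} (hT : T.Finite) {p q : E3} (hne : ¬ Ed T p q) :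
    ∃ s : ℝ, p + s • (q - p) ∈ convexHull ℝ (T \ {p, q}) := by
  by_contra hcon
  push Not at hcon
  have hfin : (T \ {p, q}).Finite := hT.subset Set.sdiff_subset
  have hK : IsCompact (convexHull ℝ (T \ {p, q})) := hfin.isCompact_convexHull ℝ
  have hLc : IsClosed (line[ℝ, p, q] : Set E3) := AffineSubspace.closed_of_finiteDimensional _
  have hL : Convex ℝ (line[ℝ, p, q] : Set E3) := AffineSubspace.convex _
  have hmem : ∀ s : ℝ, p + s • (q - p) ∈ (line[ℝ, p, q] : Set E3) := by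
    intro s
    have := AffineMap.lineMap_mem_affineSpan_pair s p q
    rw [AffineMap.lineMap_apply] at this
    simpa [add_comm] using this
  have hdisj : Disjoint (convexHull ℝ (T \ {p, q})) (line[ℝ, p, q] : Set E3) := by
    rw [Set.disjoint_left]
    intro x hx hxL
    obtain ⟨s, hs⟩ := mem_affineSpan_pair_iff_exists_lineMap_eq.1 hxL
    apply hcon s
    rw [AffineMap.lineMap_apply] at hs
    have : p + s • (q - p) = x := by
      rw [← hs]; simp [add_comm]
    rw [this]; exact hx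
  obtain ⟨f, u, v, h1, h2, h3⟩ :=
    geometric_hahn_banach_compact_closed (convex_convexHull ℝ _) hK hL hLc hdisj
  have hf0 : f (q - p) = 0 := by
    by_contra h0
    have := h3 _ (hmem ((v - f p) / f (q - p)))
    rw [map_add, map_smul, smul_eq_mul, div_mul_cancel₀ _ h0] at this
    linarith
  have hpq : f p = f q := by
    rw [map_sub] at hf0; linarith
  apply hne
  refine ⟨(InnerProductSpace.toDual ℝ E3).symm f, ?_, fun z hz hzp hzq => ?_⟩
  · rw [InnerProductSpace.toDual_symm_apply, InnerProductSpace.toDual_symm_apply]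
    exact hpq
  · rw [InnerProductSpace.toDual_symm_apply, InnerProductSpace.toDual_symm_apply]
    have e1 := h1 z (subset_convexHull ℝ _ ⟨hz, by
      simp only [Set.mem_insert_iff, Set.mem_singleton_iff, not_or]; exact ⟨hzp, hzq⟩⟩)
    have e2 := h3 _ (hmem 0)
    rw [zero_smul, add_zero] at e2
    linarith

/-- If two points are not joined by an edge then their difference lies in the cone spanned by
the differences with the other points. -/
lemma cone_lemma {n : ℕ} (t : Fin n → E3) (ht : Function.Injective t)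
    (hpos : ∀ i, ∃ u : E3, ∀ k, k ≠ i → @inner ℝ E3 _ u (t k) < @inner ℝ E3 _ u (t i))
    {i j : Fin n} (hij : i ≠ j) (hne : ¬ Ed (Set.range t) (t i) (t j)) :
    ∃ c : Fin n → ℝ, (∀ k, 0 ≤ c k) ∧ c i = 0 ∧ c j = 0 ∧
      t j - t i = ∑ k, c k • (t k - t i) := by
  classical
  obtain ⟨s, hs⟩ := line_meets (Set.finite_range t) hne
  have hset : (Set.range t \ {t i, t j}) = ((Finset.univ.filter
      (fun k => k ≠ i ∧ k ≠ j)).image t : Finset E3) := by
    ext x
    simp only [Set.mem_sdiff, Set.mem_range, Set.mem_insert_iff, Set.mem_singleton_iff,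
      Finset.coe_image, Finset.coe_filter, Finset.mem_univ, true_and, Set.mem_image,
      Set.mem_ofPred_eq, not_or]
    constructor
    · rintro ⟨⟨k, rfl⟩, h1, h2⟩
      exact ⟨k, ⟨fun h => h1 (by rw [h]), fun h => h2 (by rw [h])⟩, rfl⟩
    · rintro ⟨k, ⟨h1, h2⟩, rfl⟩
      exact ⟨⟨k, rfl⟩, fun h => h1 (ht h), fun h => h2 (ht h)⟩
  rw [hset, Finset.mem_convexHull'] at hs
  obtain ⟨w, hw0, hw1, hw2⟩ := hs
  rw [Finset.sum_image (fun a _ b _ h => ht h)] at hw1 hw2
  set F : Finset (Fin n) := Finset.univ.filter (fun k => k ≠ i ∧ k ≠ j) with hF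
  have hw0' : ∀ k ∈ F, 0 ≤ w (t k) := fun k hk => hw0 _ (Finset.mem_image_of_mem t hk)
  -- the difference
  have hdiff : s • (t j - t i) = ∑ k ∈ F, w (t k) • (t k - t i) := by
    simp only [smul_sub]
    rw [Finset.sum_sub_distrib, ← Finset.sum_smul, hw1, hw2, one_smul, smul_sub]
    abel
  obtain ⟨u, hu⟩ := hpos i
  have hneg : ∀ k, k ≠ i → @inner ℝ E3 _ u (t k - t i) < 0 := by
    intro k hk
    rw [inner_sub_right]
    linarith [hu k hk]
  have hsum : @inner ℝ E3 _ u (∑ k ∈ F, w (t k) • (t k - t i)) < 0 := by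
    rw [inner_sum]
    have hle : ∀ k ∈ F, @inner ℝ E3 _ u (w (t k) • (t k - t i)) ≤ 0 := by
      intro k hk
      rw [real_inner_smul_right]
      have hki : k ≠ i := ((Finset.mem_filter.1 hk).2).1
      exact mul_nonpos_of_nonneg_of_nonpos (hw0' k hk) (hneg k hki).le
    have hex : ∃ k ∈ F, 0 < w (t k) := by
      by_contra hcon
      push Not at hcon
      have : ∑ k ∈ F, w (t k) ≤ 0 := Finset.sum_nonpos hcon
      rw [hw1] at this
      linarith
    obtain ⟨k, hk, hkpos⟩ := hex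
    have := Finset.sum_lt_sum hle ⟨k, hk, by
      rw [real_inner_smul_right]
      exact mul_neg_of_pos_of_neg hkpos (hneg k ((Finset.mem_filter.1 hk).2).1)⟩
    simpa using this
  have hspos : 0 < s := by
    rw [← hdiff, real_inner_smul_right] at hsum
    have h1 := hneg j (Ne.symm hij)
    by_contra hcon
    push Not at hcon
    have := mul_nonneg_of_nonpos_of_nonpos hcon h1.le
    linarith
  refine ⟨fun k => if k ∈ F then w (t k) / s else 0, ?_, ?_, ?_, ?_⟩
  · intro k
    by_cases hk : k ∈ F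
    · simp only [hk, if_true]
      exact div_nonneg (hw0' k hk) hspos.le
    · simp [hk]
  · simp [hF]
  · simp [hF]
  · have h2 : t j - t i = s⁻¹ • (s • (t j - t i)) := by
      rw [smul_smul, inv_mul_cancel₀ hspos.ne', one_smul]
    rw [h2, hdiff, Finset.smul_sum]
    rw [← Finset.sum_filter_add_sum_filter_not Finset.univ (fun k => k ∈ F)]
    have hz : ∑ k ∈ Finset.univ.filter (fun k => ¬ k ∈ F),
        (if k ∈ F then w (t k) / s else 0) • (t k - t i) = 0 := by
      apply Finset.sum_eq_zero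
      intro k hk
      have : ¬ k ∈ F := (Finset.mem_filter.1 hk).2
      simp [this]
    rw [hz, add_zero]
    have hFF : Finset.univ.filter (fun k => k ∈ F) = F := by
      ext k; simp
    rw [hFF]
    apply Finset.sum_congr rfl
    intro k hk
    simp only [hk, if_true]
    rw [smul_smul, div_eq_inv_mul]

/-- Elimination between the two non-neighbours of a vertex. -/
lemma cone3 {v n1 n2 n3 m1 m2 : E3}
    (hv : ∃ u : E3, @inner ℝ E3 _ u n1 < @inner ℝ E3 _ u v ∧ @inner ℝ E3 _ u n2 < @inner ℝ E3 _ u v ∧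
      @inner ℝ E3 _ u n3 < @inner ℝ E3 _ u v ∧ @inner ℝ E3 _ u m1 < @inner ℝ E3 _ u v ∧
      @inner ℝ E3 _ u m2 < @inner ℝ E3 _ u v)
    (h1 : ∃ u : E3, @inner ℝ E3 _ u v < @inner ℝ E3 _ u m1 ∧ @inner ℝ E3 _ u m2 < @inner ℝ E3 _ u m1)
    (h2 : ∃ u : E3, @inner ℝ E3 _ u v < @inner ℝ E3 _ u m2 ∧ @inner ℝ E3 _ u m1 < @inner ℝ E3 _ u m2)
    {x1 x2 x3 x5 y1 y2 y3 y4 : ℝ}
    (hx1 : 0 ≤ x1) (hx2 : 0 ≤ x2) (hx3 : 0 ≤ x3) (hx5 : 0 ≤ x5)
    (hy1 : 0 ≤ y1) (hy2 : 0 ≤ y2) (hy3 : 0 ≤ y3) (hy4 : 0 ≤ y4)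
    (hx : m1 - v = x1 • (n1 - v) + x2 • (n2 - v) + x3 • (n3 - v) + x5 • (m2 - v))
    (hy : m2 - v = y1 • (n1 - v) + y2 • (n2 - v) + y3 • (n3 - v) + y4 • (m1 - v)) :
    (∃ p1 p2 p3 : ℝ, 0 ≤ p1 ∧ 0 ≤ p2 ∧ 0 ≤ p3 ∧
      m1 - v = p1 • (n1 - v) + p2 • (n2 - v) + p3 • (n3 - v)) ∧
    (∃ q1 q2 q3 : ℝ, 0 ≤ q1 ∧ 0 ≤ q2 ∧ 0 ≤ q3 ∧
      m2 - v = q1 • (n1 - v) + q2 • (n2 - v) + q3 • (n3 - v)) := by
  obtain ⟨u, un1, un2, un3, um1, um2⟩ := hv
  have e1 : @inner ℝ E3 _ u (n1 - v) < 0 := by rw [inner_sub_right]; linarith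
  have e2 : @inner ℝ E3 _ u (n2 - v) < 0 := by rw [inner_sub_right]; linarith
  have e3 : @inner ℝ E3 _ u (n3 - v) < 0 := by rw [inner_sub_right]; linarith
  have e4 : @inner ℝ E3 _ u (m1 - v) < 0 := by rw [inner_sub_right]; linarith
  have e5 : @inner ℝ E3 _ u (m2 - v) < 0 := by rw [inner_sub_right]; linarith
  have key1 : (1 - x5 * y4) • (m1 - v) =
      (x1 + x5 * y1) • (n1 - v) + (x2 + x5 * y2) • (n2 - v) + (x3 + x5 * y3) • (n3 - v) := by
    have : (1 - x5 * y4) • (m1 - v) = (m1 - v) - (x5 * y4) • (m1 - v) := by module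
    rw [this]
    nth_rewrite 1 [hx]
    nth_rewrite 1 [hy]
    module
  have key2 : (1 - x5 * y4) • (m2 - v) =
      (y1 + y4 * x1) • (n1 - v) + (y2 + y4 * x2) • (n2 - v) + (y3 + y4 * x3) • (n3 - v) := by
    have : (1 - x5 * y4) • (m2 - v) = (m2 - v) - (x5 * y4) • (m2 - v) := by module
    rw [this]
    nth_rewrite 1 [hy]
    nth_rewrite 1 [hx]
    module
  have a1 : 0 ≤ x1 + x5 * y1 := by positivity
  have a2 : 0 ≤ x2 + x5 * y2 := by positivity
  have a3 : 0 ≤ x3 + x5 * y3 := by positivity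
  have b1 : 0 ≤ y1 + y4 * x1 := by positivity
  have b2 : 0 ≤ y2 + y4 * x2 := by positivity
  have b3 : 0 ≤ y3 + y4 * x3 := by positivity
  have hin := congrArg (fun z => @inner ℝ E3 _ u z) key1
  simp only [inner_add_right, real_inner_smul_right] at hin
  have hpos : 0 < 1 - x5 * y4 := by
    rcases lt_trichotomy (1 - x5 * y4) 0 with h | h | h
    · exfalso
      have g0 := mul_pos_of_neg_of_neg h e4
      have g1 := mul_nonpos_of_nonneg_of_nonpos a1 e1.le
      have g2 := mul_nonpos_of_nonneg_of_nonpos a2 e2.le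
      have g3 := mul_nonpos_of_nonneg_of_nonpos a3 e3.le
      linarith
    · exfalso
      rw [h, zero_mul] at hin
      have g1 := mul_nonpos_of_nonneg_of_nonpos a1 e1.le
      have g2 := mul_nonpos_of_nonneg_of_nonpos a2 e2.le
      have g3 := mul_nonpos_of_nonneg_of_nonpos a3 e3.le
      have z1 : (x1 + x5 * y1) * @inner ℝ E3 _ u (n1 - v) = 0 := by linarith
      have z2 : (x2 + x5 * y2) * @inner ℝ E3 _ u (n2 - v) = 0 := by linarith
      have z3 : (x3 + x5 * y3) * @inner ℝ E3 _ u (n3 - v) = 0 := by linarith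
      have w1 : x1 + x5 * y1 = 0 := by
        rcases mul_eq_zero.1 z1 with h' | h'
        · exact h'
        · exact absurd h' e1.ne
      have w2 : x2 + x5 * y2 = 0 := by
        rcases mul_eq_zero.1 z2 with h' | h'
        · exact h'
        · exact absurd h' e2.ne
      have w3 : x3 + x5 * y3 = 0 := by
        rcases mul_eq_zero.1 z3 with h' | h'
        · exact h'
        · exact absurd h' e3.ne
      have c1 : x1 = 0 := by have := mul_nonneg hx5 hy1; linarith
      have c2 : x2 = 0 := by have := mul_nonneg hx5 hy2; linarith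
      have c3 : x3 = 0 := by have := mul_nonneg hx5 hy3; linarith
      have hx' : m1 - v = x5 • (m2 - v) := by
        rw [hx, c1, c2, c3]; module
      obtain ⟨u1, r1, r2⟩ := h1
      obtain ⟨u2, s1, s2⟩ := h2
      have t1 := congrArg (fun z => @inner ℝ E3 _ u1 z) hx'
      have t2 := congrArg (fun z => @inner ℝ E3 _ u2 z) hx'
      simp only [inner_sub_right, real_inner_smul_right] at t1 t2
      rcases le_or_gt x5 1 with h5 | h5
      · have q1 : 0 < @inner ℝ E3 _ u1 m1 - @inner ℝ E3 _ u1 v := by linarith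
        have q2 : @inner ℝ E3 _ u1 m2 - @inner ℝ E3 _ u1 v <
            @inner ℝ E3 _ u1 m1 - @inner ℝ E3 _ u1 v := by linarith
        rcases le_or_gt 0 (@inner ℝ E3 _ u1 m2 - @inner ℝ E3 _ u1 v) with h6 | h6
        · have := mul_le_mul_of_nonneg_right h5 h6
          linarith
        · have := mul_nonpos_of_nonneg_of_nonpos hx5 h6.le
          linarith
      · have q1 : 0 < @inner ℝ E3 _ u2 m2 - @inner ℝ E3 _ u2 v := by linarith
        have := mul_lt_mul_of_pos_right h5 q1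
        linarith
    · exact h
  have inv : ∀ z : E3, z = (1 - x5 * y4)⁻¹ • ((1 - x5 * y4) • z) := by
    intro z
    rw [smul_smul, inv_mul_cancel₀ hpos.ne', one_smul]
  refine ⟨⟨(1 - x5 * y4)⁻¹ * (x1 + x5 * y1), (1 - x5 * y4)⁻¹ * (x2 + x5 * y2),
    (1 - x5 * y4)⁻¹ * (x3 + x5 * y3), by positivity, by positivity, by positivity, ?_⟩,
    ⟨(1 - x5 * y4)⁻¹ * (y1 + y4 * x1), (1 - x5 * y4)⁻¹ * (y2 + y4 * x2),
    (1 - x5 * y4)⁻¹ * (y3 + y4 * x3), by positivity, by positivity, by positivity, ?_⟩⟩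
  · rw [inv (m1 - v), key1]; module
  · rw [inv (m2 - v), key2]; module

end Pool.H36R3.SymR
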