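import Mathlib
import Pool.Agent.H36R3.SymCone

set_option autoImplicit false

namespace Pool.H36R3.SymR

lemma inner_comb2 (x y : ℝ) (u v : E3) :
    inner ℝ (x • u + y • v) (x • u + y • v) =
      x ^ 2 * inner ℝ u u + 2 * x * y * inner ℝ u v + y ^ 2 * inner ℝ v v := by
  simp only [inner_add_left, inner_add_right, real_inner_smul_left, real_inner_smul_right]
  rw [real_inner_comm u v]
  ring

lemma cubic_pos (r : ℝ) (h0 : 0 ≤ r) (h1 : r ≤ 1) :
    0 < 30171 - 127792.5 * r + 165072 * r ^ 2 - 342 * r ^ 3 := by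
  have h3 : r ^ 3 ≤ 1 := pow_le_one₀ h0 h1
  nlinarith [sq_nonneg (r - 0.387)]

/-- The metric contradiction. -/
lemma metric_contra (b c a : E3) (p1 p3 q2 q3 : ℝ)
    (hli : ∀ x y z : ℝ, x • b + y • c + z • a = 0 → x = 0 ∧ y = 0 ∧ z = 0)
    (hp1 : 0 ≤ p1) (hp3 : 0 < p3) (hq2 : 0 ≤ q2) (hq3 : 0 < q3)
    (hcop : (1 - q2) * p3 = (1 - p1) * q3)
    (h1 : inner ℝ b b = (21760 : ℝ)) (h2 : inner ℝ c c = (165780 : ℝ))
    (h4 : inner ℝ a a = (41616 : ℝ))
    (h5 : inner ℝ ((p1 - 1) • b + p3 • a) ((p1 - 1) • b + p3 • a) = (41616 : ℝ))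
    (h6 : inner ℝ (p1 • b + (p3 - 1) • a) (p1 • b + (p3 - 1) • a) = (5440 : ℝ))
    (h7 : inner ℝ (q2 • c + (q3 - 1) • a) (q2 • c + (q3 - 1) • a) = (11445 : ℝ))
    (h9 : inner ℝ ((q2 - 1) • c + q3 • a) ((q2 - 1) • c + q3 • a) = (134217 : ℝ))
    (h10 : inner ℝ (p1 • b + p3 • a) (p1 • b + p3 • a) =
      inner ℝ ((-1 : ℝ) • b + (1 : ℝ) • a) ((-1 : ℝ) • b + (1 : ℝ) • a)) : False := by
  have hw : 0 < inner ℝ ((p1 - 1) • b + (1 + p3) • a) ((p1 - 1) • b + (1 + p3) • a) := by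
    apply real_inner_self_pos.2
    intro h
    have := (hli (p1 - 1) 0 (1 + p3) (by rw [zero_smul, add_zero]; exact h)).2.2
    linarith
  rw [inner_comb2] at hw h5 h6 h7 h9
  rw [inner_comb2, inner_comb2] at h10
  rw [h1, h4] at hw h5 h6 h10
  rw [h2, h4] at h7 h9
  set m : ℝ := inner ℝ b a with hm
  set n : ℝ := inner ℝ c a with hn
  -- w . b = 0
  have wb : (1 + p3) * m + (p1 - 1) * 21760 = 0 := by linarith
  -- (p3 - 1) * (w . a) = 0
  have wa : (p3 - 1) * ((1 + p3) * 41616 + (p1 - 1) * m) = 0 := by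
    have e : (p3 - 1) * ((1 + p3) * 41616 + (p1 - 1) * m) =
      ((p1 - 1) ^ 2 * 21760 + 2 * (p1 - 1) * p3 * m + p3 ^ 2 * 41616 - 41616)
        - (p1 - 1) * ((1 + p3) * m + (p1 - 1) * 21760) := by ring
    rw [e, h5, wb]; ring
  have ww : 0 < (1 + p3) * ((1 + p3) * 41616 + (p1 - 1) * m) := by
    have e : (1 + p3) * ((1 + p3) * 41616 + (p1 - 1) * m) =
      ((p1 - 1) ^ 2 * 21760 + 2 * (p1 - 1) * (1 + p3) * m + (1 + p3) ^ 2 * 41616)
        - (p1 - 1) * ((1 + p3) * m + (p1 - 1) * 21760) := by ring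
    rw [e, wb]; linarith
  have hwa : (1 + p3) * 41616 + (p1 - 1) * m ≠ 0 := by
    intro h; rw [h, mul_zero] at ww; exact lt_irrefl _ ww
  have hp3' : p3 = 1 := by
    rcases mul_eq_zero.1 wa with h | h
    · linarith
    · exact absurd h hwa
  subst hp3'
  have hp1' : p1 = 1 / 2 := by
    have : (p1 - 1 / 2) * (p1 + 1 / 2) = 0 := by nlinarith
    rcases mul_eq_zero.1 this with h | h
    · linarith
    · linarith
  subst hp1'
  have hq3' : q3 = 2 * (1 - q2) := by linarith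
  subst hq3'
  have hq21 : q2 < 1 := by linarith
  have hpoly : (30171 - 342 * q2) * (1 - q2) ^ 2 + 134217 * q2 * (q2 - 1 / 2) = 0 := by
    -- delta
    set d : ℝ := 165780 - 4 * n + 4 * 41616 with hd
    have h9' : (1 - q2) ^ 2 * d = 134217 := by rw [hd]; linarith [h9]
    have h7' : 30171 - 342 * q2 + q2 * (q2 - 1 / 2) * d = 0 := by
      have hn' : n = (165780 + 4 * 41616 - d) / 4 := by rw [hd]; ring
      rw [hn'] at h7
      nlinarith [h7]
    have := congrArg (fun z => z * (1 - q2) ^ 2) h7'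
    simp only [zero_mul] at this
    have e : (30171 - 342 * q2) * (1 - q2) ^ 2 + 134217 * q2 * (q2 - 1 / 2) =
      (30171 - 342 * q2 + q2 * (q2 - 1 / 2) * d) * (1 - q2) ^ 2
       - q2 * (q2 - 1 / 2) * ((1 - q2) ^ 2 * d - 134217) := by ring
    rw [e, h9', this]; ring
  have := cubic_pos q2 hq2 hq21.le
  nlinarith

end Pool.H36R3.SymR
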