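import Mathlib
import Pool.Agent.H36R3.SymCone
import Pool.Agent.H36R3.SymMetric

set_option autoImplicit false

namespace Pool.H36R3.SymR

lemma cone3_idx (t : Fin 6 → E3) (ht : Function.Injective t)
    (hpos : ∀ i, ∃ u : E3, ∀ k, k ≠ i → @inner ℝ E3 _ u (t k) < @inner ℝ E3 _ u (t i))
    (v n1 n2 n3 m1 m2 : Fin 6)
    (hsum : ∀ f : Fin 6 → E3, ∑ k, f k = f v + f n1 + f n2 + f n3 + f m1 + f m2)
    (d1 : v ≠ n1) (d2 : v ≠ n2) (d3 : v ≠ n3) (d4 : v ≠ m1) (d5 : v ≠ m2) (d6 : m1 ≠ m2)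
    (hn1 : ¬ Ed (Set.range t) (t v) (t m1)) (hn2 : ¬ Ed (Set.range t) (t v) (t m2)) :
    (∃ p1 p2 p3 : ℝ, 0 ≤ p1 ∧ 0 ≤ p2 ∧ 0 ≤ p3 ∧
      t m1 - t v = p1 • (t n1 - t v) + p2 • (t n2 - t v) + p3 • (t n3 - t v)) ∧
    (∃ q1 q2 q3 : ℝ, 0 ≤ q1 ∧ 0 ≤ q2 ∧ 0 ≤ q3 ∧
      t m2 - t v = q1 • (t n1 - t v) + q2 • (t n2 - t v) + q3 • (t n3 - t v)) := by
  obtain ⟨c, c0, c1, c2, c3⟩ := cone_lemma t ht hpos d4 hn1
  obtain ⟨e, e0, e1, e2, e3⟩ := cone_lemma t ht hpos d5 hn2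
  rw [hsum] at c3 e3
  rw [c1, c2] at c3
  rw [e1, e2] at e3
  refine cone3 (x1 := c n1) (x2 := c n2) (x3 := c n3) (x5 := c m2)
    (y1 := e n1) (y2 := e n2) (y3 := e n3) (y4 := e m1) ?_ ?_ ?_
    (c0 _) (c0 _) (c0 _) (c0 _) (e0 _) (e0 _) (e0 _) (e0 _) ?_ ?_
  · obtain ⟨u, hu⟩ := hpos v
    exact ⟨u, hu _ d1.symm, hu _ d2.symm, hu _ d3.symm, hu _ d4.symm, hu _ d5.symm⟩
  · obtain ⟨u, hu⟩ := hpos m1
    exact ⟨u, hu _ d4, hu _ d6.symm⟩
  · obtain ⟨u, hu⟩ := hpos m2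
    exact ⟨u, hu _ d5, hu _ d6⟩
  · rw [c3]; module
  · rw [e3]; module

lemma vec_eq_zero_aux {X Y : E3} (h : X = Y) : Y - X = 0 := by rw [h, sub_self]

/-- Linear independence from a nonempty interior. -/
lemma li_of_interior (t : Fin 6 → E3)
    (hint : (interior (convexHull ℝ (Set.range t))).Nonempty)
    (b c a : E3) (h1 : t 1 = t 0 + b) (h2 : t 2 = t 0 + c) (h3 : t 3 = t 0 + a)
    (h4 : ∃ x y z : ℝ, t 4 = t 0 + (x • b + y • c + z • a))
    (h5 : ∃ x y z : ℝ, t 5 = t 0 + (x • b + y • c + z • a)) :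
    ∀ x y z : ℝ, x • b + y • c + z • a = 0 → x = 0 ∧ y = 0 ∧ z = 0 := by
  have haff : affineSpan ℝ (Set.range t) = ⊤ := by
    have h := interior_convexHull_nonempty_iff_affineSpan_eq_top.1 hint
    exact h
  have hdir : vectorSpan ℝ (Set.range t) = ⊤ := by
    rw [← direction_affineSpan, haff, AffineSubspace.direction_top]
  rw [vectorSpan_eq_span_vsub_set_right ℝ (Set.mem_range_self (0 : Fin 6))] at hdir
  have hspan : (⊤ : Submodule ℝ E3) ≤ Submodule.span ℝ (Set.range ![b, c, a]) := by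
    rw [← hdir]
    apply Submodule.span_le.2
    rintro x ⟨y, ⟨k, rfl⟩, rfl⟩
    have hb : b ∈ Submodule.span ℝ (Set.range ![b, c, a]) :=
      Submodule.subset_span ⟨0, rfl⟩
    have hc : c ∈ Submodule.span ℝ (Set.range ![b, c, a]) :=
      Submodule.subset_span ⟨1, rfl⟩
    have ha : a ∈ Submodule.span ℝ (Set.range ![b, c, a]) :=
      Submodule.subset_span ⟨2, rfl⟩
    have hcomb : ∀ x y z : ℝ, x • b + y • c + z • a ∈ Submodule.span ℝ (Set.range ![b, c, a]) :=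
      fun x y z => Submodule.add_mem _ (Submodule.add_mem _ (Submodule.smul_mem _ _ hb)
        (Submodule.smul_mem _ _ hc)) (Submodule.smul_mem _ _ ha)
    obtain ⟨x4, y4, z4, h4⟩ := h4
    obtain ⟨x5, y5, z5, h5⟩ := h5
    simp only [vsub_eq_sub, SetLike.mem_coe]
    fin_cases k
    · simp
    · show t 1 - t 0 ∈ _
      rw [h1, add_sub_cancel_left]; exact hb
    · show t 2 - t 0 ∈ _
      rw [h2, add_sub_cancel_left]; exact hc
    · show t 3 - t 0 ∈ _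
      rw [h3, add_sub_cancel_left]; exact ha
    · show t 4 - t 0 ∈ _
      rw [h4, add_sub_cancel_left]; exact hcomb _ _ _
    · show t 5 - t 0 ∈ _
      rw [h5, add_sub_cancel_left]; exact hcomb _ _ _
  have hli : LinearIndependent ℝ ![b, c, a] :=
    linearIndependent_of_top_le_span_of_card_eq_finrank hspan (by simp)
  intro x y z h
  have := Fintype.linearIndependent_iff.1 hli ![x, y, z] (by
    rw [Fin.sum_univ_three]; simpa using h)
  exact ⟨this 0, this 1, this 2⟩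

/-- The prism with the prescribed edge lengths has no symmetric realization. -/
theorem prism_contra (t : Fin 6 → E3) (ht : Function.Injective t)
    (hpos : ∀ i, ∃ u : E3, ∀ k, k ≠ i → @inner ℝ E3 _ u (t k) < @inner ℝ E3 _ u (t i))
    (hint : (interior (convexHull ℝ (Set.range t))).Nonempty)
    (n04 : ¬ Ed (Set.range t) (t 0) (t 4)) (n05 : ¬ Ed (Set.range t) (t 0) (t 5))
    (n13 : ¬ Ed (Set.range t) (t 1) (t 3)) (n15 : ¬ Ed (Set.range t) (t 1) (t 5))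
    (n23 : ¬ Ed (Set.range t) (t 2) (t 3)) (n24 : ¬ Ed (Set.range t) (t 2) (t 4))
    (d01 : dist (t 0) (t 1) ^ 2 = 21760) (d02 : dist (t 0) (t 2) ^ 2 = 165780)
    (d03 : dist (t 0) (t 3) ^ 2 = 41616) (d14 : dist (t 1) (t 4) ^ 2 = 41616)
    (d34 : dist (t 3) (t 4) ^ 2 = 5440) (d35 : dist (t 3) (t 5) ^ 2 = 11445)
    (d25 : dist (t 2) (t 5) ^ 2 = 134217)
    (hsym : dist (t 0) (t 4) ^ 2 = dist (t 1) (t 3) ^ 2) : False := by
  obtain ⟨⟨p1, p2, p3, hp1, hp2, hp3, hp⟩, ⟨q1, q2, q3, hq1, hq2, hq3, hq⟩⟩ :=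
    cone3_idx t ht hpos 0 1 2 3 4 5 (by intro f; rw [Fin.sum_univ_six])
      (by decide) (by decide) (by decide) (by decide) (by decide) (by decide) n04 n05
  obtain ⟨⟨r0, r2, r4, hr0, hr2, hr4, hr⟩, ⟨s0, s2, s4, hs0, hs2, hs4, hs⟩⟩ :=
    cone3_idx t ht hpos 1 0 2 4 3 5 (by intro f; rw [Fin.sum_univ_six]; abel)
      (by decide) (by decide) (by decide) (by decide) (by decide) (by decide) n13 n15
  obtain ⟨⟨k0, k1, k5, hk0, hk1, hk5, hk⟩, ⟨l0, l1, l5, hl0, hl1, hl5, hl⟩⟩ :=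
    cone3_idx t ht hpos 2 0 1 5 3 4 (by intro f; rw [Fin.sum_univ_six]; abel)
      (by decide) (by decide) (by decide) (by decide) (by decide) (by decide) n23 n24
  obtain ⟨b, hb⟩ : ∃ b, b = t 1 - t 0 := ⟨_, rfl⟩
  obtain ⟨c, hc⟩ : ∃ c, c = t 2 - t 0 := ⟨_, rfl⟩
  obtain ⟨a, ha⟩ : ∃ a, a = t 3 - t 0 := ⟨_, rfl⟩
  have h1 : t 1 = t 0 + b := by rw [hb]; abel
  have h2 : t 2 = t 0 + c := by rw [hc]; abel
  have h3 : t 3 = t 0 + a := by rw [ha]; abel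
  rw [← hb, ← hc, ← ha] at hp hq
  have h4 : t 4 = t 0 + (p1 • b + p2 • c + p3 • a) := by rw [← hp]; abel
  have h5 : t 5 = t 0 + (q1 • b + q2 • c + q3 • a) := by rw [← hq]; abel
  have hli := li_of_interior t hint b c a h1 h2 h3 ⟨_, _, _, h4⟩ ⟨_, _, _, h5⟩
  obtain ⟨A, hA⟩ : ∃ A, A = t 0 := ⟨_, rfl⟩
  rw [← hA] at h1 h2 h3 h4 h5
  rw [h1, h2, h3, h4, ← hA] at hr
  rw [h1, h2, h4, h5, ← hA] at hs
  rw [h1, h2, h3, h5, ← hA] at hk
  rw [h1, h2, h4, h5, ← hA] at hl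
  -- coefficient comparisons
  obtain ⟨r_b, r_c, r_a⟩ := hli (-r0 - r2 + r4 * (p1 - 1) + 1) (r2 + r4 * p2) (r4 * p3 - 1) (by
    rw [← vec_eq_zero_aux hr]; module)
  obtain ⟨s_b, s_c, s_a⟩ := hli (-s0 - s2 + s4 * (p1 - 1) - (q1 - 1)) (s2 + s4 * p2 - q2)
    (s4 * p3 - q3) (by
    rw [← vec_eq_zero_aux hs]; module)
  obtain ⟨k_b, k_c, k_a⟩ := hli (k1 + k5 * q1) (-k0 - k1 + k5 * (q2 - 1) + 1) (k5 * q3 - 1) (by
    rw [← vec_eq_zero_aux hk]; module)
  obtain ⟨l_b, l_c, l_a⟩ := hli (l1 + l5 * q1 - p1) (-l0 - l1 + l5 * (q2 - 1) - (p2 - 1))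
    (l5 * q3 - p3) (by
    rw [← vec_eq_zero_aux hl]; module)
  have hp3' : 0 < p3 := by
    rcases hp3.lt_or_eq with h | h
    · exact h
    · rw [← h] at r_a; norm_num at r_a
  have hr4' : 0 < r4 := by
    rcases hr4.lt_or_eq with h | h
    · exact h
    · rw [← h] at r_a; norm_num at r_a
  have hq3' : 0 < q3 := by
    rcases hq3.lt_or_eq with h | h
    · exact h
    · rw [← h] at k_a; norm_num at k_a
  have hk5' : 0 < k5 := by
    rcases hk5.lt_or_eq with h | h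
    · exact h
    · rw [← h] at k_a; norm_num at k_a
  have hp2z : p2 = 0 := by
    have := mul_nonneg hr4 hp2
    have h0 : r4 * p2 = 0 := by linarith
    rcases mul_eq_zero.1 h0 with h | h
    · exact absurd h hr4'.ne'
    · exact h
  have hq1z : q1 = 0 := by
    have := mul_nonneg hk5 hq1
    have h0 : k5 * q1 = 0 := by linarith
    rcases mul_eq_zero.1 h0 with h | h
    · exact absurd h hk5'.ne'
    · exact h
  subst hp2z
  subst hq1z
  -- opposite inequalities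
  have i1 : (1 - p1) * q3 ≤ (1 - q2) * p3 := by
    have : s0 = 1 - q2 + s4 * (p1 - 1) := by linarith
    rw [this] at hs0
    have := mul_nonneg hs0 hp3'.le
    have e : (1 - q2 + s4 * (p1 - 1)) * p3 = (1 - q2) * p3 + (s4 * p3) * (p1 - 1) := by ring
    rw [e] at this
    have e2 : s4 * p3 = q3 := by linarith
    rw [e2] at this
    linarith
  have i2 : (1 - q2) * p3 ≤ (1 - p1) * q3 := by
    have : l0 = 1 - p1 + l5 * (q2 - 1) := by linarith
    rw [this] at hl0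
    have := mul_nonneg hl0 hq3'.le
    have e : (1 - p1 + l5 * (q2 - 1)) * q3 = (1 - p1) * q3 + (l5 * q3) * (q2 - 1) := by ring
    rw [e] at this
    have e2 : l5 * q3 = p3 := by linarith
    rw [e2] at this
    linarith
  have hds : ∀ x y : E3, dist x y ^ 2 = inner ℝ (y - x) (y - x) := by
    intro x y
    rw [dist_comm, dist_eq_norm, real_inner_self_eq_norm_sq]
  rw [hds] at d01 d02 d03 d14 d34 d35 d25
  rw [hds, hds] at hsym
  rw [h1, ← hA] at d01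
  rw [h2, ← hA] at d02
  rw [h3, ← hA] at d03
  rw [h1, h4] at d14
  rw [h3, h4] at d34
  rw [h3, h5] at d35
  rw [h2, h5] at d25
  rw [h4, h1, h3, ← hA] at hsym
  refine metric_contra b c a p1 p3 q2 q3 hli hp1 hp3' hq2 hq3' (le_antisymm i2 i1) ?_ ?_ ?_ ?_ ?_ ?_ ?_ ?_
  · rw [← d01]; congr 1 <;> module
  · rw [← d02]; congr 1 <;> module
  · rw [← d03]; congr 1 <;> module
  · rw [← d14]; congr 1 <;> module
  · rw [← d34]; congr 1 <;> module
  · rw [← d35]; congr 1 <;> module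
  · rw [← d25]; congr 1 <;> module
  · have e1 : p1 • b + p3 • a = A + (p1 • b + (0 : ℝ) • c + p3 • a) - A := by module
    have e2 : (-1 : ℝ) • b + (1 : ℝ) • a = A + a - (A + b) := by module
    rw [e1, e2]; exact hsym

end Pool.H36R3.SymR
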