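import Mathlib

set_option autoImplicit false

open Finset

namespace Pool.Agent.H36R3.UMix

abbrev A := ZMod 5

instance fact5 : Fact (Nat.Prime 5) := ⟨by norm_num⟩

/-- the standard character -/
noncomputable abbrev e : AddChar A ℂ := ZMod.stdAddChar

lemma e_eq (z : A) :
    Complex.exp (2 * (Real.pi : ℂ) * Complex.I * ((z.val : ℕ) : ℂ) / ((5 : ℕ) : ℂ)) = e z := by
  rw [ZMod.stdAddChar_apply, ZMod.toCircle_apply]

lemma norm_e (z : A) : ‖e z‖ = 1 := by
  rw [ZMod.stdAddChar_apply]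
  exact Circle.norm_coe _

def V1 : Finset (A × A) :=
  {(0,2),(0,3),(1,0),(1,2),(2,0),(2,2),(3,2),(3,3),(4,0),(4,1)}
def V2 : Finset (A × A) :=
  {(0,1),(0,3),(1,2),(1,3),(2,1),(2,3),(3,0),(3,1),(4,0),(4,1)}
def V3 : Finset (A × A) :=
  {(0,0),(0,1),(0,3),(0,4),(1,2),(1,3),(1,4),(2,1),(2,2),(3,0)}

/-- number of `v ∈ W` with `v · y = w` -/
def n (W : Finset (A × A)) (y : A × A) (w : A) : ℕ :=
  (W.filter (fun v => v.1 * y.1 + v.2 * y.2 = w)).card

def T1 (y : A × A) : A := 3 * y.1 ^ 2 * y.2 + 2 * y.2 ^ 3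
def T2 (y : A × A) : A := 3 * y.1 ^ 2 * y.2 + 3 * y.2 ^ 3
def T3 (y : A × A) : A := y.1 ^ 3 + 3 * y.1 ^ 2 * y.2 + 2 * y.1 * y.2 ^ 2

lemma n1 : ∀ y : A × A, ∀ w : A, (n V1 y w : A) = (n V1 y 0 : A) - T1 y * w := by decide +kernel
lemma n2 : ∀ y : A × A, ∀ w : A, (n V2 y w : A) = (n V2 y 0 : A) - T2 y * w := by decide +kernel
lemma n3 : ∀ y : A × A, ∀ w : A, (n V3 y w : A) = (n V3 y 0 : A) - T3 y * w := by decide +kernel

/-- the permutation of the plane -/
def p (y : A × A) : A × A := (T1 y + T3 y, T2 y + T3 y)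

lemma p_bij : ∀ z : A × A, ∃ y : A × A, p y = z ∧ ∀ y', p y' = z → y' = y := by decide +kernel

lemma card1 : V1.card = 10 := by decide
lemma card2 : V2.card = 10 := by decide
lemma card3 : V3.card = 10 := by decide

/-- sum over the nonzero multiples -/
lemma sum_nz (w : A) : ∑ s ∈ univ.filter (fun s : A => s ≠ 0), e (s * w) =
    5 * (if w = 0 then 1 else 0) - 1 := by
  have h := AddChar.sum_mulShift (ψ := e) w (ZMod.isPrimitive_stdAddChar 5)
  have h2 : ∑ s : A, e (s * w) = e (0 * w) +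
      ∑ s ∈ univ.filter (fun s : A => s ≠ 0), e (s * w) := by
    rw [← Finset.sum_erase_add (a := (0 : A)) _ _ (mem_univ _), add_comm]
    congr 2
  rw [h2] at h
  rw [zero_mul, AddChar.map_zero_eq_one] at h
  have h3 := eq_sub_of_add_eq' h
  rw [h3]
  split_ifs <;> simp [ZMod.card]

/-- inner block sum -/
lemma block (W : Finset (A × A)) (a : A) (y : A × A) :
    ∑ s ∈ univ.filter (fun s : A => s ≠ 0), ∑ v ∈ W, e (s * (a + (v.1 * y.1 + v.2 * y.2))) =
      5 * (n W y (-a) : ℂ) - W.card := by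
  rw [Finset.sum_comm]
  simp_rw [sum_nz]
  rw [Finset.sum_sub_distrib, ← Finset.mul_sum, n, Finset.card_filter]
  simp only [Finset.sum_const, nsmul_eq_mul, mul_one]
  congr 2
  push_cast
  refine Finset.sum_congr rfl fun v _ => ?_
  have : a + (v.1 * y.1 + v.2 * y.2) = 0 ↔ v.1 * y.1 + v.2 * y.2 = -a := by
    constructor
    · intro h; linear_combination h
    · intro h; linear_combination h
  simp only [this]

abbrev G := Fin 4 → A

abbrev nz : Finset A := univ.filter (fun s : A => s ≠ 0)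

def f1 (q : A × (A × A)) : G := ![q.1, 0, q.1 * q.2.1, q.1 * q.2.2]
def f2 (q : A × (A × A)) : G := ![0, q.1, q.1 * q.2.1, q.1 * q.2.2]
def f3 (q : A × (A × A)) : G := ![q.1, q.1, q.1 * q.2.1, q.1 * q.2.2]

def C1 : Finset G := (nz ×ˢ V1).image f1
def C2 : Finset G := (nz ×ˢ V2).image f2
def C3 : Finset G := (nz ×ˢ V3).image f3
def C4 : Finset G := {![0,0,1,0], ![0,0,-1,0]}

def C : Finset G := C1 ∪ (C2 ∪ (C3 ∪ C4))

lemma mem_C1 {c : G} : c ∈ C1 → c 0 ≠ 0 ∧ c 1 = 0 := by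
  intro h
  obtain ⟨q, hq, rfl⟩ := mem_image.1 h
  have := (mem_filter.1 (mem_product.1 hq).1).2
  exact ⟨by simpa [f1] using this, by simp [f1]⟩

lemma mem_C2 {c : G} : c ∈ C2 → c 0 = 0 ∧ c 1 ≠ 0 := by
  intro h
  obtain ⟨q, hq, rfl⟩ := mem_image.1 h
  have := (mem_filter.1 (mem_product.1 hq).1).2
  exact ⟨by simp [f2], by simpa [f2] using this⟩

lemma mem_C3 {c : G} : c ∈ C3 → c 0 ≠ 0 ∧ c 1 ≠ 0 := by
  intro h
  obtain ⟨q, hq, rfl⟩ := mem_image.1 h
  have := (mem_filter.1 (mem_product.1 hq).1).2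
  exact ⟨by simpa [f3] using this, by simpa [f3] using this⟩

lemma mem_C4 {c : G} : c ∈ C4 → c 0 = 0 ∧ c 1 = 0 := by
  intro h
  simp only [C4, mem_insert, mem_singleton] at h
  rcases h with rfl | rfl <;> simp

lemma disj : Disjoint C1 (C2 ∪ (C3 ∪ C4)) ∧ Disjoint C2 (C3 ∪ C4) ∧ Disjoint C3 C4 := by
  refine ⟨?_, ?_, ?_⟩
  · rw [Finset.disjoint_left]
    intro c h1 h2
    have a1 := mem_C1 h1
    rcases mem_union.1 h2 with h | h
    · exact a1.1 (mem_C2 h).1
    · rcases mem_union.1 h with h | h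
      · exact (mem_C3 h).2 a1.2
      · exact a1.1 (mem_C4 h).1
  · rw [Finset.disjoint_left]
    intro c h1 h2
    have a1 := mem_C2 h1
    rcases mem_union.1 h2 with h | h
    · exact (mem_C3 h).1 a1.1
    · exact a1.2 (mem_C4 h).2
  · rw [Finset.disjoint_left]
    intro c h1 h2
    exact (mem_C3 h1).1 (mem_C4 h2).1

lemma inj1 (W : Finset (A × A)) : Set.InjOn f1 (↑(nz ×ˢ W) : Set (A × (A × A))) := by
  rintro ⟨s, v1, v2⟩ h ⟨s', v1', v2'⟩ h' heq
  have hs : s ≠ 0 := (mem_filter.1 (mem_product.1 h).1).2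
  have e0 := congrFun heq 0
  have e2 := congrFun heq 2
  have e3 := congrFun heq 3
  simp only [f1, Matrix.cons_val] at e0 e2 e3
  subst e0
  have := mul_left_cancel₀ hs e2
  have h3 := mul_left_cancel₀ hs e3
  subst this; subst h3; rfl

lemma inj2 (W : Finset (A × A)) : Set.InjOn f2 (↑(nz ×ˢ W) : Set (A × (A × A))) := by
  rintro ⟨s, v1, v2⟩ h ⟨s', v1', v2'⟩ h' heq
  have hs : s ≠ 0 := (mem_filter.1 (mem_product.1 h).1).2
  have e0 := congrFun heq 1
  have e2 := congrFun heq 2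
  have e3 := congrFun heq 3
  simp only [f2, Matrix.cons_val] at e0 e2 e3
  subst e0
  have := mul_left_cancel₀ hs e2
  have h3 := mul_left_cancel₀ hs e3
  subst this; subst h3; rfl

lemma inj3 (W : Finset (A × A)) : Set.InjOn f3 (↑(nz ×ˢ W) : Set (A × (A × A))) := by
  rintro ⟨s, v1, v2⟩ h ⟨s', v1', v2'⟩ h' heq
  have hs : s ≠ 0 := (mem_filter.1 (mem_product.1 h).1).2
  have e0 := congrFun heq 0
  have e2 := congrFun heq 2
  have e3 := congrFun heq 3
  simp only [f3, Matrix.cons_val] at e0 e2 e3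
  subst e0
  have := mul_left_cancel₀ hs e2
  have h3 := mul_left_cancel₀ hs e3
  subst this; subst h3; rfl

/-- the eigenvalue attached to `y` -/
noncomputable def lam (y : G) : ℂ := ∑ c ∈ C, e (∑ j, c j * y j)

/-- total number of lines of the connection set orthogonal to `y` -/
def N (y : G) : ℕ := n V1 (y 2, y 3) (-(y 0)) + n V2 (y 2, y 3) (-(y 1)) +
  n V3 (y 2, y 3) (-(y 0 + y 1))

lemma lam_eq (y : G) : lam y = 5 * (N y : ℂ) - 30 + (e (y 2) + e (-(y 2))) := by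
  have hne : (![0,0,1,0] : G) ≠ ![0,0,-1,0] := by decide
  rw [lam, C, Finset.sum_union disj.1, Finset.sum_union disj.2.1, Finset.sum_union disj.2.2,
    C1, C2, C3, C4, Finset.sum_image (inj1 V1), Finset.sum_image (inj2 V2),
    Finset.sum_image (inj3 V3), Finset.sum_pair hne, Finset.sum_product, Finset.sum_product,
    Finset.sum_product]
  have h1 : ∑ s ∈ nz, ∑ v ∈ V1, e (∑ j, f1 (s, v) j * y j) =
      5 * (n V1 (y 2, y 3) (-(y 0)) : ℂ) - V1.card := by
    rw [← block]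
    refine Finset.sum_congr rfl fun s _ => Finset.sum_congr rfl fun v _ => ?_
    congr 1
    rw [Fin.sum_univ_four]
    simp only [f1, Matrix.cons_val]
    ring
  have h2 : ∑ s ∈ nz, ∑ v ∈ V2, e (∑ j, f2 (s, v) j * y j) =
      5 * (n V2 (y 2, y 3) (-(y 1)) : ℂ) - V2.card := by
    rw [← block]
    refine Finset.sum_congr rfl fun s _ => Finset.sum_congr rfl fun v _ => ?_
    congr 1
    rw [Fin.sum_univ_four]
    simp only [f2, Matrix.cons_val]
    ring
  have h3 : ∑ s ∈ nz, ∑ v ∈ V3, e (∑ j, f3 (s, v) j * y j) =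
      5 * (n V3 (y 2, y 3) (-(y 0 + y 1)) : ℂ) - V3.card := by
    rw [← block]
    refine Finset.sum_congr rfl fun s _ => Finset.sum_congr rfl fun v _ => ?_
    congr 1
    rw [Fin.sum_univ_four]
    simp only [f3, Matrix.cons_val]
    ring
  rw [h1, h2, h3, card1, card2, card3, Fin.sum_univ_four, Fin.sum_univ_four]
  simp only [Matrix.cons_val, N]
  push_cast
  have e1 : (0 * y 0 + 0 * y 1 + 1 * y 2 + 0 * y 3 : A) = y 2 := by ring
  have e2 : (0 * y 0 + 0 * y 1 + -1 * y 2 + 0 * y 3 : A) = -(y 2) := by ring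
  rw [e1, e2]
  ring

/-- the part of the phase depending only on the last two coordinates -/
noncomputable def h (y : A × A) : ℂ :=
  e ((n V1 y 0 : A) + (n V2 y 0 : A) + (n V3 y 0 : A)) *
    Complex.exp (2 * Real.pi * Complex.I / 25 * (-30 + (e y.1 + e (-y.1))))

lemma e_add_real (z : A) : ∃ r : ℝ, e z + e (-z) = (r : ℂ) := by
  refine ⟨2 * (e z).re, ?_⟩
  have : e (-z) = (starRingEnd ℂ) (e z) := by
    rw [AddChar.map_neg_eq_conj]
  rw [this, Complex.add_conj]

lemma norm_h (y : A × A) : ‖h y‖ = 1 := by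
  rw [h, norm_mul, norm_e, one_mul]
  obtain ⟨r, hr⟩ := e_add_real y.1
  rw [hr, Complex.norm_exp]
  have : (2 * (Real.pi:ℂ) * Complex.I / 25 * (-30 + (r:ℂ))) =
      ((2 * Real.pi / 25 * (-30 + r) : ℝ) : ℂ) * Complex.I := by
    push_cast; ring
  rw [this, Complex.re_ofReal_mul, Complex.I_re, mul_zero, Real.exp_zero]

/-- the transition phase at time `-2π/25` -/
lemma phase (y : G) :
    Complex.exp (-(Complex.I * ((-(2 * Real.pi / 25) : ℝ) : ℂ) * lam y)) =
      h (y 2, y 3) * (e (y 0 * (p (y 2, y 3)).1) * e (y 1 * (p (y 2, y 3)).2)) := by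
  have h1 : -(Complex.I * ((-(2 * Real.pi / 25) : ℝ) : ℂ) * lam y) =
      2 * Real.pi * Complex.I * ((N y : ℤ) : ℂ) / ((5 : ℕ) : ℂ) +
        2 * Real.pi * Complex.I / 25 * (-30 + (e (y 2) + e (-(y 2)))) := by
    rw [lam_eq]
    push_cast
    ring
  rw [h1, Complex.exp_add, ← ZMod.stdAddChar_coe, h]
  have h2 : (((N y : ℤ)) : A) = ((n V1 (y 2, y 3) 0 : A) + (n V2 (y 2, y 3) 0 : A) +
      (n V3 (y 2, y 3) 0 : A)) + (y 0 * (p (y 2, y 3)).1 + y 1 * (p (y 2, y 3)).2) := by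
    simp only [N, p]
    push_cast
    rw [n1, n2, n3]
    ring
  rw [h2, AddChar.map_add_eq_mul, AddChar.map_add_eq_mul (x := y 0 * (p (y 2, y 3)).1)]
  ring

def eqv : G ≃ (A × A) × (A × A) where
  toFun y := ((y 2, y 3), (y 0, y 1))
  invFun q := ![q.2.1, q.2.2, q.1.1, q.1.2]
  left_inv y := by
    ext i
    fin_cases i <;> rfl
  right_inv q := rfl

lemma flat (u : G) :
    ‖∑ y : G, Complex.exp (-(Complex.I * ((-(2 * Real.pi / 25) : ℝ) : ℂ) * lam y)) *
      e (∑ j, u j * y j)‖ = 25 := by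
  have h1 : ∑ y : G, Complex.exp (-(Complex.I * ((-(2 * Real.pi / 25) : ℝ) : ℂ) * lam y)) *
      e (∑ j, u j * y j) =
      ∑ q : (A × A) × (A × A), h q.1 * e (u 2 * q.1.1 + u 3 * q.1.2) *
        (e (q.2.1 * ((p q.1).1 + u 0)) * e (q.2.2 * ((p q.1).2 + u 1))) := by
    refine Fintype.sum_equiv eqv _ _ fun y => ?_
    have he : eqv y = ((y 2, y 3), (y 0, y 1)) := rfl
    rw [phase, Fin.sum_univ_four, he]
    simp only
    rw [← AddChar.map_add_eq_mul, ← AddChar.map_add_eq_mul, mul_assoc, mul_assoc,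
      ← AddChar.map_add_eq_mul, ← AddChar.map_add_eq_mul]
    congr 2
    ring
  rw [h1, Fintype.sum_prod_type]
  have h2 : ∀ z : A × A, ∑ x : A × A, h (z, x).1 * e (u 2 * (z, x).1.1 + u 3 * (z, x).1.2) *
        (e ((z, x).2.1 * ((p (z, x).1).1 + u 0)) * e ((z, x).2.2 * ((p (z, x).1).2 + u 1))) =
      h z * e (u 2 * z.1 + u 3 * z.2) * (if p z = (-(u 0), -(u 1)) then 25 else 0) := by
    intro z
    simp only
    rw [← Finset.mul_sum, Fintype.sum_prod_type]
    congr 1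
    have h3 : ∀ a : A, ∑ x : A, e (x * a) = if a = 0 then 5 else 0 := by
      intro a
      rw [AddChar.sum_mulShift (ψ := e) a (ZMod.isPrimitive_stdAddChar 5)]
      split_ifs <;> simp [ZMod.card]
    simp only
    simp_rw [← Finset.mul_sum, h3, ← Finset.sum_mul, h3]
    have h4 : p z = (-(u 0), -(u 1)) ↔ ((p z).1 + u 0 = 0 ∧ (p z).2 + u 1 = 0) := by
      rw [Prod.ext_iff]
      constructor
      · rintro ⟨a, b⟩
        simp only at a b
        exact ⟨by rw [a]; ring, by rw [b]; ring⟩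
      · rintro ⟨a, b⟩
        exact ⟨by simp only; linear_combination a, by simp only; linear_combination b⟩
    simp only [h4]
    by_cases a : (p z).1 + u 0 = 0 <;> by_cases b : (p z).2 + u 1 = 0 <;> simp [a, b]
    norm_num
  simp_rw [h2]
  obtain ⟨y, hy, huniq⟩ := p_bij (-(u 0), -(u 1))
  rw [Finset.sum_eq_single y]
  · rw [if_pos hy, norm_mul, norm_mul, norm_h, norm_e]
    norm_num
  · intro z _ hz
    rw [if_neg (fun hp => hz (huniq z hp)), mul_zero]
  · intro hcon; exact absurd (mem_univ y) hcon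

/-- `e 1 + e (-1)` is not an integer. -/
lemma golden : ¬ ∃ k : ℤ, e 1 + e (-1) = (k : ℂ) := by
  rintro ⟨k, hk⟩
  have h0 : ∑ x : A, e (x * 1) = 0 := by
    rw [AddChar.sum_mulShift (ψ := e) 1 (ZMod.isPrimitive_stdAddChar 5)]
    simp
  have h1 : ∑ x : A, e (x * 1) = 1 + (e 1 + e (-1)) + (e (1 + 1) + e (-1 + -1)) := by
    have : ∀ f : A → ℂ, ∑ x : A, f x = f 0 + f 1 + f 2 + f 3 + f 4 := fun f =>
      Fin.sum_univ_five f
    rw [this]
    have e3 : (3 : A) = -1 + -1 := by decide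
    have e4 : (4 : A) = -1 := by decide
    have e2 : (2 : A) = 1 + 1 := by decide
    rw [e3, e4, e2]
    simp only [mul_one, AddChar.map_zero_eq_one]
    ring
  have h2 : (e 1 + e (-1)) * (e 1 + e (-1)) = e (1 + 1) + e (-1 + -1) + 2 := by
    rw [AddChar.map_add_eq_mul, AddChar.map_add_eq_mul]
    have : e 1 * e (-1) = 1 := by
      rw [← AddChar.map_add_eq_mul, add_neg_cancel, AddChar.map_zero_eq_one]
    linear_combination 2 * this
  rw [h1, hk] at h0
  rw [hk] at h2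
  have h3 : (k : ℂ) * k + k = 1 := by linear_combination h2 + h0
  have h4 : k * k + k = 1 := by exact_mod_cast h3
  have h5 : Even (k * (k + 1)) := Int.even_mul_succ_self k
  have h6 : k * (k + 1) = 1 := by linarith
  rw [h6] at h5
  exact absurd h5 (by decide)

end Pool.Agent.H36R3.UMix
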